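import Pool.Agent.Q187.Mass.Ellip

/-!
# Volumes of cross-polytopes
-/

set_option autoImplicit false

open MeasureTheory Set Filter Topology Metric Module
open scoped RealInnerProductSpace ENNReal Nat

namespace Q187.Mass

variable {d : ℕ}

/-- the cross-polytope `conv{±v_1, ..., ±v_d}` -/
def cross (v : Fin d → EuclideanSpace ℝ (Fin d)) : Set (EuclideanSpace ℝ (Fin d)) :=
  convexHull ℝ (Set.range v ∪ Set.range (fun i => -v i))

noncomputable def eb (i : Fin d) : Ed d := EuclideanSpace.basisFun (Fin d) ℝ i

lemma eb_det : Δ d (eb (d := d)) = 1 := by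
  have := (EuclideanSpace.basisFun (Fin d) ℝ).toBasis.det_self
  unfold Δ
  convert this using 2
  ext i
  simp [eb]

lemma l1_convex : Convex ℝ {x : Ed d | ∑ i, |x i| ≤ 1} := by
  intro x hx y hy a b ha hb hab
  simp only [mem_ofPred_eq] at hx hy ⊢
  calc ∑ i, |(a • x + b • y) i| ≤ ∑ i, (a * |x i| + b * |y i|) := by
        apply Finset.sum_le_sum
        intro i _
        simp only [PiLp.add_apply, PiLp.smul_apply, smul_eq_mul]
        refine (abs_add_le _ _).trans ?_
        rw [abs_mul, abs_mul, abs_of_nonneg ha, abs_of_nonneg hb]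
    _ = a * ∑ i, |x i| + b * ∑ i, |y i| := by
        rw [Finset.sum_add_distrib, Finset.mul_sum, Finset.mul_sum]
    _ ≤ a * 1 + b * 1 := by gcongr
    _ = 1 := by linarith

lemma cross_eb (hd : 0 < d) : cross (eb (d := d)) = {x : Ed d | ∑ i, |x i| ≤ 1} := by
  apply Subset.antisymm
  · apply convexHull_min _ l1_convex
    rintro _ (⟨i, rfl⟩ | ⟨i, rfl⟩)
    · simp [eb, EuclideanSpace.basisFun_apply, Pi.single_apply, apply_ite abs]
    · simp [eb, EuclideanSpace.basisFun_apply, Pi.single_apply, apply_ite abs]
  · intro x hx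
    simp only [mem_ofPred_eq] at hx
    have hconv : Convex ℝ (cross (eb (d := d))) := convex_convexHull ℝ _
    have hmem1 : ∀ i, eb i ∈ cross (eb (d := d)) := fun i =>
      subset_convexHull ℝ _ (Or.inl ⟨i, rfl⟩)
    have hmem2 : ∀ i, -eb i ∈ cross (eb (d := d)) := fun i =>
      subset_convexHull ℝ _ (Or.inr ⟨i, rfl⟩)
    have h0 : (0 : Ed d) ∈ cross (eb (d := d)) := by
      have h1 := hconv (hmem1 ⟨0, hd⟩) (hmem2 ⟨0, hd⟩) (a := 1 / 2) (b := 1 / 2) (by norm_num)
        (by norm_num) (by norm_num)
      have e : (1 / 2 : ℝ) • eb (d := d) ⟨0, hd⟩ + (1 / 2 : ℝ) • -eb (d := d) ⟨0, hd⟩ = 0 := by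
        module
      rwa [e] at h1
    set s := ∑ i, |x i| with hs
    have hs0 : 0 ≤ s := Finset.sum_nonneg fun i _ => abs_nonneg _
    rcases hs0.eq_or_lt with h1 | h1
    · have hx0 : x = 0 := by
        ext i
        have := (Finset.sum_eq_zero_iff_of_nonneg (fun i _ => abs_nonneg (x i))).1 (hs ▸ h1.symm) i
          (Finset.mem_univ i)
        simpa using this
      rw [hx0]; exact h0
    · set z : Fin d → Ed d := fun i => if 0 ≤ x i then eb i else -eb i with hz
      have hzm : ∀ i, z i ∈ cross (eb (d := d)) := by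
        intro i
        rw [hz]
        simp only
        split_ifs
        · exact hmem1 i
        · exact hmem2 i
      have h2 : ∑ i, (|x i| / s) • z i ∈ cross (eb (d := d)) := by
        apply hconv.sum_mem
        · intro i _; positivity
        · rw [← Finset.sum_div, ← hs, div_self h1.ne']
        · intro i _; exact hzm i
      have h3 : x = s • (∑ i, (|x i| / s) • z i) + (1 - s) • (0 : Ed d) := by
        rw [smul_zero, add_zero, Finset.smul_sum]
        have h4 : ∀ i, s • (|x i| / s) • z i = x i • eb i := by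
          intro i
          rw [smul_smul, mul_div_cancel₀ _ h1.ne', hz]
          simp only
          split_ifs with h5
          · rw [abs_of_nonneg h5]
          · rw [abs_of_neg (not_le.1 h5), smul_neg, neg_smul, neg_neg]
        simp_rw [h4]
        have h6 := (EuclideanSpace.basisFun (Fin d) ℝ).sum_repr x
        nth_rw 1 [← h6]
        apply Finset.sum_congr rfl
        intro i _
        rw [EuclideanSpace.basisFun_repr]
        rfl
      rw [h3]
      exact hconv h2 h0 hs0 (by linarith) (by ring)

lemma vol_l1 (hd : 0 < d) : volume {x : Ed d | ∑ i, |x i| ≤ 1} = ENNReal.ofReal (2 ^ d / d !) := by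
  haveI : Nonempty (Fin d) := ⟨⟨0, hd⟩⟩
  have h1 := MeasureTheory.volume_sum_rpow_le (ι := Fin d) (p := 1) le_rfl 1
  simp only [Real.rpow_one, div_one, Fintype.card_fin, ENNReal.ofReal_one, one_pow, one_mul] at h1
  have hG : Real.Gamma (1 + 1) = 1 := by
    rw [Real.Gamma_add_one one_ne_zero, Real.Gamma_one, one_mul]
  rw [hG, mul_one, Real.Gamma_nat_eq_factorial] at h1
  rw [← h1]
  have hmp := PiLp.volume_preserving_ofLp (Fin d)
  have hm : MeasurableSet {x : Fin d → ℝ | ∑ i, |x i| ≤ 1} := by
    apply IsClosed.measurableSet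
    apply isClosed_le _ continuous_const
    fun_prop
  rw [← hmp.measure_preimage hm.nullMeasurableSet]
  rfl

/-- The volume of a cross-polytope. -/
theorem cross_vol (hd : 0 < d) (v : Fin d → Ed d) :
    (volume (cross v)).toReal = 2 ^ d / d ! * |Δ d v| := by
  set b := (EuclideanSpace.basisFun (Fin d) ℝ).toBasis with hb
  set T : Ed d →ₗ[ℝ] Ed d := b.constr ℝ v with hT
  have hTe : ∀ i, T (eb i) = v i := by
    intro i
    have := b.constr_basis ℝ v i
    rw [← hT, hb] at this
    simpa [eb] using this
  have h1 : cross v = T '' cross (eb (d := d)) := by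
    unfold cross
    rw [LinearMap.image_convexHull, image_union, ← range_comp, ← range_comp]
    congr 3
    · ext1 i; exact (hTe i).symm
    · ext1 i; simp [hTe]
  have h2 : LinearMap.det T = Δ d v := by
    have h3 := comp_det T (eb (d := d))
    rw [eb_det, mul_one] at h3
    rw [← h3]
    congr 1
    ext1 i
    exact hTe i
  rw [h1, Measure.addHaar_image_linearMap, h2, cross_eb hd, vol_l1 hd, ENNReal.toReal_mul,
    ENNReal.toReal_ofReal (abs_nonneg _), ENNReal.toReal_ofReal (by positivity), mul_comm]

lemma hadamard (hd : 0 < d) : Bd (closedBall (0 : Ed d) 1) 1 := by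
  intro v hv
  haveI : Fact (finrank ℝ (Ed d) = d) := ⟨by simp⟩
  set b := EuclideanSpace.basisFun (Fin d) ℝ with hb
  have h1 := Orientation.abs_volumeForm_apply_le (n := d) b.toBasis.orientation v
  rw [Orientation.volumeForm_robust' _ b] at h1
  refine le_trans h1 ?_
  apply Finset.prod_le_one
  · intro i _; exact norm_nonneg _
  · intro i _; exact mem_closedBall_zero_iff.1 (hv i)

end Q187.Mass
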