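import Pool.Agent.H318R3.St.Haus

/-!
# Determinants along a line and Steiner symmetrization

`Δ n` is the determinant of `n` vectors of `ℝ^n`. If all vectors are moved parallel to one fixed
vector then the determinant is an affine function of the parameter. Hence the bound
`|Δ v| ≤ c` for all `v ∈ K^n` passes to the Steiner symmetral of `K`.
-/

set_option autoImplicit false

open MeasureTheory Set Filter Topology Metric Module
open scoped RealInnerProductSpace ENNReal

namespace Q187.Mass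

open Pool.Agent.H318R3.St

abbrev Ed (n : ℕ) := EuclideanSpace ℝ (Fin n)

/-- the determinant -/
noncomputable def Δ (n : ℕ) : (Ed n) [⋀^Fin n]→ₗ[ℝ] ℝ := (EuclideanSpace.basisFun (Fin n) ℝ).toBasis.det

variable {n : ℕ}

lemma row_op (u : Ed n) (r : Fin n → Ed n) (c : Fin n → ℝ) (k : Fin n) (hk : c k ≠ 0) (s : ℝ) :
    Δ n (fun i => r i + (s * c i) • u) =
      Δ n (Function.update (fun i => r i - (c i / c k) • r k) k (r k + (s * c k) • u)) := by
  unfold Δ
  rw [Basis.det_apply, Basis.det_apply, ← Matrix.det_transpose, ← Matrix.det_transpose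
    (Basis.toMatrix _ (Function.update _ _ _))]
  apply Matrix.det_eq_of_forall_row_eq_smul_add_const
    (fun i => if i = k then 0 else c i / c k) k (by simp)
  intro i j
  simp only [Matrix.transpose_apply, Basis.toMatrix_apply, Function.update_self]
  by_cases h : i = k
  · subst h
    simp
  · simp only [Function.update_of_ne h, if_neg h, map_add, map_sub, map_smul, Finsupp.add_apply,
      Finsupp.sub_apply, Finsupp.smul_apply, smul_eq_mul]
    field_simp
    ring

/-- moving all vectors parallel to `u` -/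
lemma aff (u : Ed n) (r : Fin n → Ed n) (c : Fin n → ℝ) (s : ℝ) :
    Δ n (fun i => r i + (s * c i) • u) =
      Δ n r + s * (Δ n (fun i => r i + c i • u) - Δ n r) := by
  by_cases h : ∀ i, c i = 0
  · simp [h]
  · push Not at h
    obtain ⟨k, hk⟩ := h
    have key : ∀ s : ℝ, Δ n (fun i => r i + (s * c i) • u) =
        Δ n (Function.update (fun i => r i - (c i / c k) • r k) k (r k)) + s * (c k *
        Δ n (Function.update (fun i => r i - (c i / c k) • r k) k u)) := by
      intro s
      rw [row_op u r c k hk s, AlternatingMap.map_update_add, AlternatingMap.map_update_smul,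
        smul_eq_mul, mul_assoc]
    have h0 := key 0
    have h1 := key 1
    simp only [zero_mul, zero_smul, add_zero, one_mul] at h0 h1
    rw [key s, h1, h0]
    ring

lemma comp_det (T : Ed n →ₗ[ℝ] Ed n) (v : Fin n → Ed n) :
    Δ n (fun i => T (v i)) = LinearMap.det T * Δ n v := by
  have := Basis.det_comp (EuclideanSpace.basisFun (Fin n) ℝ).toBasis T v
  exact this

lemma refl_det {u : Ed n} (hu : ‖u‖ = 1) (v : Fin n → Ed n) :
    Δ n (fun i => refl u (v i)) = - Δ n v := by
  have h1 : (refl u).toLinearEquiv.toLinearMap =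
      LinearMap.transvection ((-2 : ℝ) • (innerSL ℝ u).toLinearMap) u := by
    ext1 x
    rw [LinearMap.transvection.apply]
    show refl u x = x + ((-2 : ℝ) • ⟪u, x⟫) • u
    rw [refl_apply hu, real_inner_comm, smul_eq_mul, neg_mul, neg_smul, sub_eq_add_neg]
  have h2 := comp_det (refl u).toLinearEquiv.toLinearMap v
  rw [h1, LinearMap.transvection.det] at h2
  have h3 : ((-2 : ℝ) • (innerSL ℝ u).toLinearMap) u = -2 := by
    show (-2 : ℝ) • ⟪u, u⟫ = -2
    rw [inner_self_one hu]; norm_num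
  rw [h3] at h2
  rw [← h1] at h2
  have h4 : Δ n (fun i => refl u (v i)) = (1 + -2) * Δ n v := h2
  rw [h4]; ring

/-- the determinant bound -/
def Bd (K : Set (Ed n)) (c : ℝ) : Prop := ∀ v : Fin n → Ed n, (∀ i, v i ∈ K) → |Δ n v| ≤ c

lemma mid (u : Ed n) (p r : Fin n → Ed n) (c : Fin n → ℝ) (h : ∀ i, r i = p i + c i • u) :
    Δ n (fun i => (1 / 2 : ℝ) • (p i + r i)) = (Δ n p + Δ n r) / 2 := by
  have h1 := aff u p c (1 / 2)
  have e1 : (fun i => p i + (1 / 2 * c i) • u) = fun i => (1 / 2 : ℝ) • (p i + r i) := by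
    ext1 i
    rw [h i]
    module
  have e2 : (fun i => p i + c i • u) = r := by
    ext1 i; rw [h i]
  rw [e1, e2] at h1
  rw [h1]
  ring

lemma sym_rep {u : Ed n} (hu : ‖u‖ = 1) {K : Set (Ed n)} (hK : IsCompact K) (hc : Convex ℝ K)
    (w : Fin n → Ed n) (hw : ∀ i, w i ∈ sym u K) :
    ∃ p q : Fin n → Ed n, (∀ i, p i ∈ K) ∧ (∀ i, q i ∈ K) ∧
      (∀ i, w i = (1 / 2 : ℝ) • (p i + refl u (q i))) ∧
      (∀ i, p i - q i = ⟪p i - q i, u⟫ • u) ∧ Δ n w = (Δ n p - Δ n q) / 2 := by
  rw [sym_eq_image hu hK hc] at hw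
  choose pq hpq hw' using hw
  refine ⟨fun i => (pq i).1, fun i => (pq i).2, fun i => (hpq i).1, fun i => (hpq i).2.1,
    fun i => (hw' i).symm, fun i => (hpq i).2.2, ?_⟩
  have e : w = fun i => (1 / 2 : ℝ) • ((pq i).1 + refl u (pq i).2) := by
    ext1 i; exact (hw' i).symm
  rw [e, mid u (fun i => (pq i).1) (fun i => refl u (pq i).2)
    (fun i => - ⟪(pq i).1 - (pq i).2, u⟫ - 2 * ⟪(pq i).2, u⟫) ?_, refl_det hu]
  · ring
  · intro i
    rw [refl_apply hu]
    have h2 := (hpq i).2.2
    have h3 : (pq i).2 = (pq i).1 - ⟪(pq i).1 - (pq i).2, u⟫ • u := by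
      rw [← h2]; abel
    conv_lhs => rw [h3]
    have h4 : ⟪(pq i).1 - ⟪(pq i).1 - (pq i).2, u⟫ • u, u⟫ = ⟪(pq i).2, u⟫ := by
      rw [← h3]
    rw [h4]
    module

lemma Bd_sym {u : Ed n} (hu : ‖u‖ = 1) {K : Set (Ed n)} (hK : IsCompact K) (hc : Convex ℝ K)
    {c : ℝ} (h : Bd K c) : Bd (sym u K) c := by
  intro w hw
  obtain ⟨p, q, hp, hq, -, -, hpq⟩ := sym_rep hu hK hc w hw
  rw [hpq, abs_div, abs_two]
  have h1 := h p hp
  have h2 := h q hq
  have h3 := abs_sub (Δ n p) (Δ n q)
  linarith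

lemma Δ_eq (v : Fin n → Ed n) : Δ n v = Matrix.det (Matrix.of fun i j => v j i) := by
  unfold Δ
  rw [Basis.det_apply]
  congr 1

lemma Δ_cont : Continuous (fun v : Fin n → Ed n => Δ n v) := by
  simp only [Δ_eq]
  apply Continuous.matrix_det
  apply continuous_matrix
  intro i j
  simp only [Matrix.of_apply]
  fun_prop

end Q187.Mass
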