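import Mathlib

/-!
# Planar norms with a linear reflection in every direction are Euclidean
-/

set_option autoImplicit false

namespace Q187.Mass

/-- A planar norm. -/
structure PN (n : ℝ → ℝ → ℝ) : Prop where
  tri : ∀ a b a' b', n (a + a') (b + b') ≤ n a b + n a' b'
  hom : ∀ c a b, n (c * a) (c * b) = |c| * n a b
  sgn : ∀ a b, n (-a) b = n a b
  one : n 1 0 = 1
  one' : n 0 1 = 1
  ref : ∀ v w, (v ≠ 0 ∨ w ≠ 0) → ∃ l k, l * v + k * w = 1 ∧
    ∀ a b, n (a - 2 * (l * a + k * b) * v) (b - 2 * (l * a + k * b) * w) = n a b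

namespace PN

variable {n : ℝ → ℝ → ℝ}

lemma neg (h : PN n) (a b : ℝ) : n (-a) (-b) = n a b := by
  have := h.hom (-1) a b
  simpa using this

lemma sgn' (h : PN n) (a b : ℝ) : n a (-b) = n a b := by
  rw [← h.sgn a (-b), h.neg]

lemma fst_le (h : PN n) (a b : ℝ) : |a| ≤ n a b := by
  have h1 := h.tri a b a (-b)
  rw [h.sgn'] at h1
  have h2 := h.hom (a + a) 1 0
  rw [h.one] at h2
  simp only [mul_one, mul_zero] at h2
  rw [add_neg_cancel, h2] at h1
  have h3 : |a + a| = 2 * |a| := by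
    rw [← two_mul, abs_mul]; norm_num
  rw [h3] at h1
  linarith

lemma snd_le (h : PN n) (a b : ℝ) : |b| ≤ n a b := by
  have h1 := h.tri a b (-a) b
  rw [h.sgn] at h1
  have h2 := h.hom (b + b) 0 1
  rw [h.one'] at h2
  simp only [mul_one, mul_zero] at h2
  rw [add_neg_cancel, h2] at h1
  have h3 : |b + b| = 2 * |b| := by
    rw [← two_mul, abs_mul]; norm_num
  rw [h3] at h1
  linarith

lemma swap (h : PN n) (a b : ℝ) : n b a = n a b := by
  obtain ⟨l, k, hlk, hr⟩ := h.ref 1 (-1) (Or.inl one_ne_zero)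
  have h1 := hr 1 0
  have h2 := hr 0 1
  rw [h.one] at h1
  rw [h.one'] at h2
  have hk : k = l - 1 := by linarith
  have e1 := h.snd_le (1 - 2 * (l * 1 + k * 0) * 1) (0 - 2 * (l * 1 + k * 0) * (-1))
  have e2 := h.fst_le (0 - 2 * (l * 0 + k * 1) * 1) (1 - 2 * (l * 0 + k * 1) * (-1))
  rw [h1] at e1
  rw [h2] at e2
  rw [hk] at e2
  have e1' := (abs_le.1 e1).2
  have e2' := (abs_le.1 e2).2
  have hl : l = 1 / 2 := by linarith
  have h3 := hr a b
  rw [hk, hl] at h3
  have x1 : a - 2 * (1 / 2 * a + (1 / 2 - 1) * b) * 1 = b := by ring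
  have x2 : b - 2 * (1 / 2 * a + (1 / 2 - 1) * b) * (-1) = a := by ring
  rw [x1, x2] at h3
  exact h3

/-- linear maps with determinant `±1` that preserve `n` -/
def Pres (n : ℝ → ℝ → ℝ) (a b c d : ℝ) : Prop :=
  (a * d - b * c = 1 ∨ a * d - b * c = -1) ∧ ∀ x y, n (a * x + b * y) (c * x + d * y) = n x y

lemma pres_tr (h : PN n) {a b c d : ℝ} (hp : Pres n a b c d) : Pres n a c b d := by
  obtain ⟨h1, h2⟩ := hp
  refine ⟨by rcases h1 with h1 | h1 <;> [left; right] <;> linarith, fun x y => ?_⟩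
  have h3 := h2 (d * y + b * x) (-(c * y) - a * x)
  have key : n (d * y + b * x) (-(c * y) - a * x) = n x y := by
    rw [← h3]
    rcases h1 with h1 | h1
    · have x1 : a * (d * y + b * x) + b * (-(c * y) - a * x) = y := by
        linear_combination y * h1
      have x2 : c * (d * y + b * x) + d * (-(c * y) - a * x) = -x := by
        linear_combination (-x) * h1
      rw [x1, x2, h.sgn', h.swap]
    · have x1 : a * (d * y + b * x) + b * (-(c * y) - a * x) = -y := by
        linear_combination y * h1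
      have x2 : c * (d * y + b * x) + d * (-(c * y) - a * x) = x := by
        linear_combination (-x) * h1
      rw [x1, x2, h.sgn, h.swap]
  have h4 : n (-(c * y) - a * x) (d * y + b * x) = n (a * x + c * y) (b * x + d * y) := by
    rw [show -(c * y) - a * x = -(a * x + c * y) by ring,
      show d * y + b * x = b * x + d * y by ring, h.sgn]
  rw [← key, ← h4, h.swap]

lemma pres_mul {a b c d a' b' c' d' : ℝ} (hp : Pres n a b c d) (hp' : Pres n a' b' c' d') :
    Pres n (a * a' + b * c') (a * b' + b * d') (c * a' + d * c') (c * b' + d * d') := by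
  obtain ⟨h1, h2⟩ := hp
  obtain ⟨h1', h2'⟩ := hp'
  have e : (a * a' + b * c') * (c * b' + d * d') - (a * b' + b * d') * (c * a' + d * c') =
    (a * d - b * c) * (a' * d' - b' * c') := by ring
  refine ⟨?_, fun x y => ?_⟩
  · rw [e]
    rcases h1 with h1 | h1 <;> rcases h1' with h1' | h1' <;> rw [h1, h1'] <;> norm_num
  · rw [← h2' x y, ← h2 (a' * x + b' * y) (c' * x + d' * y)]
    congr 1 <;> ring

lemma pres_bd (h : PN n) {a b c d : ℝ} (hp : Pres n a b c d) : a ^ 2 + c ^ 2 ≤ 2 := by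
  have h1 := hp.2 1 0
  rw [h.one] at h1
  simp only [mul_one, mul_zero, add_zero] at h1
  have h2 := h.fst_le a c
  have h3 := h.snd_le a c
  rw [h1] at h2 h3
  have h4 := sq_abs a
  have h5 := sq_abs c
  nlinarith [abs_nonneg a, abs_nonneg c]

lemma pres_le (h : PN n) {a b c d : ℝ} (hp : Pres n a b c d) : a ^ 2 + c ^ 2 ≤ 1 := by
  set S : Set ℝ := {s | ∃ a b c d, Pres n a b c d ∧ s = a ^ 2 + c ^ 2} with hS
  have hbdd : BddAbove S := ⟨2, by
    rintro _ ⟨a, b, c, d, hp, rfl⟩
    exact h.pres_bd hp⟩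
  have hne : (a ^ 2 + c ^ 2) ∈ S := ⟨a, b, c, d, hp, rfl⟩
  have key : ∀ s ∈ S, s ^ 2 ≤ sSup S := by
    rintro _ ⟨a, b, c, d, hp, rfl⟩
    have h1 := pres_mul (h.pres_tr hp) hp
    have h2 : (a * a + c * c) ^ 2 + (b * a + d * c) ^ 2 ∈ S := ⟨_, _, _, _, h1, rfl⟩
    have h3 := le_csSup hbdd h2
    nlinarith [sq_nonneg (b * a + d * c)]
  have hpos : ∀ s ∈ S, 0 ≤ s := by
    rintro _ ⟨a, b, c, d, hp, rfl⟩
    positivity
  have hle : sSup S ≤ √(sSup S) := by
    apply csSup_le ⟨_, hne⟩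
    intro s hs
    exact Real.le_sqrt_of_sq_le (key s hs)
  have h0 : 0 ≤ sSup S := (hpos _ hne).trans (le_csSup hbdd hne)
  have h1 : sSup S ≤ 1 := by
    by_contra hcon
    push Not at hcon
    have h2 : √(sSup S) ^ 2 = sSup S := Real.sq_sqrt h0
    have h3 : 1 < √(sSup S) := by
      rw [Real.lt_sqrt (by norm_num)]; simpa using hcon
    nlinarith
  exact (le_csSup hbdd hne).trans h1

theorem euclid (h : PN n) (a b : ℝ) : n a b = √(a ^ 2 + b ^ 2) := by
  set r := √(a ^ 2 + b ^ 2) with hr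
  have hr0 : 0 ≤ r := Real.sqrt_nonneg _
  have hr2 : r ^ 2 = a ^ 2 + b ^ 2 := Real.sq_sqrt (by positivity)
  have hr1 : n r 0 = r := by
    have := h.hom r 1 0
    rw [h.one] at this
    simpa [abs_of_nonneg hr0] using this
  by_cases hv : a - r ≠ 0 ∨ b ≠ 0
  · obtain ⟨l, k, hlk, hp⟩ := h.ref (a - r) b hv
    set v := a - r with hvd
    have P : Pres n (1 - 2 * l * v) (-(2 * k * v)) (-(2 * l * b)) (1 - 2 * k * b) := by
      refine ⟨Or.inr ?_, fun x y => ?_⟩
      · linear_combination (-2) * hlk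
      · rw [← hp x y]
        congr 1 <;> ring
    have P' : Pres n (-(2 * k * v)) (1 - 2 * l * v) (1 - 2 * k * b) (-(2 * l * b)) := by
      refine ⟨Or.inl ?_, fun x y => ?_⟩
      · linear_combination 2 * hlk
      · rw [← h.swap x y, ← hp y x]
        congr 1 <;> ring
    have e1 := h.pres_le P
    have e2 := h.pres_le P'
    have e3 : (l * b - k * v) ^ 2 ≤ 0 := by nlinarith
    have e4 : l * b = k * v := by
      have : (l * b - k * v) ^ 2 = 0 := le_antisymm e3 (sq_nonneg _)
      have := pow_eq_zero_iff (n := 2) (by norm_num) |>.1 this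
      linarith
    have hvv : 0 < v ^ 2 + b ^ 2 := by
      rcases hv with h0 | h0
      · positivity
      · positivity
    have hl : l * (v ^ 2 + b ^ 2) = v := by
      linear_combination v * hlk + b * e4
    have hk : k * (v ^ 2 + b ^ 2) = b := by
      linear_combination b * hlk - v * e4
    have hhalf : 2 * (l * a + k * b) = 1 := by
      have e5 : 2 * (l * a + k * b) * (v ^ 2 + b ^ 2) = v ^ 2 + b ^ 2 := by
        have : 2 * (l * a + k * b) * (v ^ 2 + b ^ 2) = 2 * (a * (l * (v ^ 2 + b ^ 2)) +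
          b * (k * (v ^ 2 + b ^ 2))) := by ring
        rw [this, hl, hk, hvd]
        nlinarith
      exact mul_right_cancel₀ hvv.ne' (by rw [e5, one_mul])
    have h6 := hp a b
    rw [hhalf] at h6
    have x1 : a - 1 * v = r := by rw [hvd]; ring
    have x2 : b - 1 * b = 0 := by ring
    rw [x1, x2, hr1] at h6
    exact h6.symm
  · push Not at hv
    have ha : a = r := by linarith [hv.1]
    rw [hv.2]
    rw [ha]
    exact hr1

end PN

end Q187.Mass
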