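import Pool.Agent.Q187.Mass.Reflect
import Pool.Agent.Q187.Mass.Plane

/-!
# Extremal bodies are ellipsoids
-/

set_option autoImplicit false

open MeasureTheory Set Filter Topology Metric Module
open scoped RealInnerProductSpace ENNReal

namespace Q187.Mass

open Pool.Agent.H318R3.St Q187.Steiner

/-- Jordan - von Neumann -/
theorem jvn {V : Type*} [AddCommGroup V] [Module ℝ V] [FiniteDimensional ℝ V] {n : ℕ}
    (hn : finrank ℝ V = n) (N : V → ℝ) (h0 : ∀ x, 0 ≤ N x) (hs : ∀ (c : ℝ) x, N (c • x) = |c| * N x)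
    (ht : ∀ x y, N (x + y) ≤ N x + N y) (hz : ∀ x, N x = 0 → x = 0)
    (hp : ∀ x y, N (x + y) ^ 2 + N (x - y) ^ 2 = 2 * (N x ^ 2 + N y ^ 2)) :
    ∃ T : Ed n ≃ₗ[ℝ] V, ∀ x, N (T x) = ‖x‖ := by
  letI : Norm V := ⟨N⟩
  have core : NormedSpace.Core ℝ V :=
    { norm_nonneg := h0
      norm_smul := hs
      norm_triangle := ht
      norm_eq_zero_iff := fun x => ⟨hz x, fun h => by
        rw [h]
        show N 0 = 0
        have := hs 0 0
        simpa using this⟩ }
  letI i1 : NormedAddCommGroup V := NormedAddCommGroup.ofCore core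
  letI i2 : NormedSpace ℝ V := NormedSpace.ofCore core
  letI i3 : InnerProductSpace ℝ V := InnerProductSpace.ofNorm ℝ (by
    intro x y
    have := hp x y
    show N (x + y) * N (x + y) + N (x - y) * N (x - y) = 2 * (N x * N x + N y * N y)
    nlinarith)
  let b := (stdOrthonormalBasis ℝ V).reindex (finCongr hn)
  refine ⟨b.repr.symm.toLinearEquiv, fun x => ?_⟩
  exact b.repr.symm.norm_map x

section gauge

variable {n : ℕ} {M : Set (Ed n)}

/-- symmetric convex bodies -/
structure SB (M : Set (Ed n)) : Prop where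
  compact : IsCompact M
  convex : Convex ℝ M
  int : (interior M).Nonempty
  symm : ∀ x ∈ M, -x ∈ M

lemma SB.nhds (h : SB M) : M ∈ 𝓝 (0 : Ed n) :=
  mem_interior_iff_mem_nhds.1 (zero_int h.convex h.symm h.int)

lemma SB.absorbent (h : SB M) : Absorbent ℝ M := absorbent_nhds_zero h.nhds

lemma SB.mem_iff (h : SB M) (x : Ed n) : x ∈ M ↔ gauge M x ≤ 1 := by
  rw [gauge_le_one_iff_mem_closure h.convex h.nhds, h.compact.isClosed.closure_eq]

lemma SB.smul (h : SB M) (c : ℝ) (x : Ed n) : gauge M (c • x) = |c| * gauge M x := by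
  have := gauge_smul (𝕜 := ℝ) (E := Ed n) (s := M) (by
    apply (balanced_iff_neg_mem h.convex).2
    intro x hx
    exact h.symm x hx) c x
  simpa using this

lemma SB.add (h : SB M) (x y : Ed n) : gauge M (x + y) ≤ gauge M x + gauge M y :=
  gauge_add_le h.convex h.absorbent x y

lemma SB.zero (h : SB M) {x : Ed n} (hx : gauge M x = 0) : x = 0 := by
  have hb : Bornology.IsVonNBounded ℝ M := NormedSpace.isVonNBounded_of_isBounded ℝ h.compact.isBounded
  exact (gauge_eq_zero h.absorbent hb).1 hx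

end gauge

variable {n : ℕ}

/-- coordinate free reflections -/
lemma refl_gauge {M : Set (Ed n)} {D : ℝ} (h : Ext M D) (hn : 0 < n) {U : Ed n} (hU : U ≠ 0)
    (U' : Ed n) : ∃ κ : ℝ, ∀ α β : ℝ,
      gauge M ((2 * κ * β - α) • U + β • U') = gauge M (α • U + β • U') := by
  have hSB : SB M := ⟨h.compact, h.convex, h.int, h.symm⟩
  have hUn : 0 < ‖U‖ := norm_pos_iff.2 hU
  set û : Ed n := (‖U‖)⁻¹ • U with hû
  have hu1 : ‖û‖ = 1 := by
    rw [hû, norm_smul, norm_inv, norm_norm, inv_mul_cancel₀ hUn.ne']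
  have hUû : U = ‖U‖ • û := by
    rw [hû, smul_smul, mul_inv_cancel₀ hUn.ne', one_smul]
  obtain ⟨κ, hκ⟩ := reflect h hn hu1 (foot_inner hu1 U')
  set κ' := (κ - ⟪U', û⟫) / ‖U‖ with hκ'
  have hU' : U' = foot û U' + ⟪U', û⟫ • û := (foot_add û U').symm
  have hmem : ∀ α β : ℝ, α • U + β • U' ∈ M → (2 * κ' * β - α) • U + β • U' ∈ M := by
    intro α β hm
    have e1 : α • U + β • U' = β • foot û U' + (α * ‖U‖ + β * ⟪U', û⟫) • û := by
      nth_rw 1 [hU', hUû]
      module
    rw [e1] at hm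
    have h2 := hκ β _ hm
    have e2 : (2 * κ' * β - α) • U + β • U' =
        β • foot û U' + ((2 * κ' * β - α) * ‖U‖ + β * ⟪U', û⟫) • û := by
      nth_rw 1 [hU', hUû]
      module
    rw [e2]
    have e3 : (2 * κ' * β - α) * ‖U‖ + β * ⟪U', û⟫ =
        2 * κ * β - (α * ‖U‖ + β * ⟪U', û⟫) := by
      rw [hκ']; field_simp; ring
    rw [e3]
    exact h2
  have hle : ∀ α β : ℝ, gauge M ((2 * κ' * β - α) • U + β • U') ≤ gauge M (α • U + β • U') := by
    intro α β
    set ν := gauge M (α • U + β • U') with hν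
    have hν0 : 0 ≤ ν := gauge_nonneg _
    rcases hν0.eq_or_lt with h1 | h1
    · have h2 := hSB.zero h1.symm
      have h3 : ∀ c : ℝ, c • (α • U + β • U') ∈ M := by
        intro c; rw [h2, smul_zero]; exact interior_subset (zero_int h.convex h.symm h.int)
      -- all multiples are in `M`
      have h4 : ∀ c : ℝ, 0 < c → gauge M ((2 * κ' * β - α) • U + β • U') ≤ c := by
        intro c hc
        have h5 := h3 c⁻¹
        have e1 : c⁻¹ • (α • U + β • U') = (c⁻¹ * α) • U + (c⁻¹ * β) • U' := by module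
        rw [e1] at h5
        have h6 := hmem _ _ h5
        have e2 : (2 * κ' * (c⁻¹ * β) - c⁻¹ * α) • U + (c⁻¹ * β) • U' =
          c⁻¹ • ((2 * κ' * β - α) • U + β • U') := by module
        rw [e2, hSB.mem_iff, hSB.smul, abs_of_pos (inv_pos.2 hc), inv_mul_le_iff₀ hc, mul_one] at h6
        exact h6
      rw [← h1]
      exact le_of_forall_pos_le_add fun ε hε => by rw [zero_add]; exact h4 ε hε
    · have h5 : ν⁻¹ • (α • U + β • U') ∈ M := by
        rw [hSB.mem_iff, hSB.smul, abs_of_pos (inv_pos.2 h1), ← hν, inv_mul_cancel₀ h1.ne']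
      have e1 : ν⁻¹ • (α • U + β • U') = (ν⁻¹ * α) • U + (ν⁻¹ * β) • U' := by module
      rw [e1] at h5
      have h6 := hmem _ _ h5
      have e2 : (2 * κ' * (ν⁻¹ * β) - ν⁻¹ * α) • U + (ν⁻¹ * β) • U' =
        ν⁻¹ • ((2 * κ' * β - α) • U + β • U') := by module
      rw [e2, hSB.mem_iff, hSB.smul, abs_of_pos (inv_pos.2 h1), inv_mul_le_iff₀ h1, mul_one] at h6
      exact h6
  refine ⟨κ', fun α β => le_antisymm (hle α β) ?_⟩
  have := hle (2 * κ' * β - α) β
  have e : 2 * κ' * β - (2 * κ' * β - α) = α := by ring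
  rwa [e] at this

/-- The parallelogram law for the gauge of an extremal body. -/
theorem parallelogram {M : Set (Ed n)} {D : ℝ} (h : Ext M D) (hn : 0 < n) (x y : Ed n) :
    gauge M (x + y) ^ 2 + gauge M (x - y) ^ 2 = 2 * (gauge M x ^ 2 + gauge M y ^ 2) := by
  have hSB : SB M := ⟨h.compact, h.convex, h.int, h.symm⟩
  by_cases hx : x = 0
  · have h1 : gauge M (-y) = gauge M y := by
      have := hSB.smul (-1) y
      simpa using this
    rw [hx, zero_add, zero_sub, h1, gauge_zero]; ring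
  have hNx : 0 < gauge M x := lt_of_le_of_ne (gauge_nonneg _) fun h0 => hx (hSB.zero h0.symm)
  obtain ⟨e1, he1⟩ : ∃ e : Ed n, e = (gauge M x)⁻¹ • x := ⟨_, rfl⟩
  have hNe1 : gauge M e1 = 1 := by
    rw [he1, hSB.smul, abs_of_pos (inv_pos.2 hNx), inv_mul_cancel₀ hNx.ne']
  have hxe : x = gauge M x • e1 := by
    rw [he1, smul_smul, mul_inv_cancel₀ hNx.ne', one_smul]
  have he10 : e1 ≠ 0 := by
    intro h0
    rw [h0, gauge_zero] at hNe1
    exact zero_ne_one hNe1
  obtain ⟨κ, hκ⟩ := refl_gauge h hn he10 y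
  obtain ⟨b, hb⟩ : ∃ b : Ed n, b = y + κ • e1 := ⟨_, rfl⟩
  have hyb : y = b - κ • e1 := by rw [hb]; abel
  by_cases hb0 : b = 0
  · have hy : y = (-κ) • e1 := by rw [hyb, hb0, zero_sub, neg_smul]
    have e2 : x + y = (gauge M x - κ) • e1 := by
      nth_rw 1 [hxe]; rw [hy]; module
    have e3 : x - y = (gauge M x + κ) • e1 := by
      nth_rw 1 [hxe]; rw [hy]; module
    rw [e2, e3, hSB.smul, hSB.smul, hy, hSB.smul, hNe1]
    simp only [mul_one, sq_abs]
    ring
  have hNb : 0 < gauge M b := lt_of_le_of_ne (gauge_nonneg _) fun h0 => hb0 (hSB.zero h0.symm)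
  obtain ⟨e2, he2⟩ : ∃ e : Ed n, e = (gauge M b)⁻¹ • b := ⟨_, rfl⟩
  have hNe2 : gauge M e2 = 1 := by
    rw [he2, hSB.smul, abs_of_pos (inv_pos.2 hNb), inv_mul_cancel₀ hNb.ne']
  have hbe : b = gauge M b • e2 := by
    rw [he2, smul_smul, mul_inv_cancel₀ hNb.ne', one_smul]
  have hsgn : ∀ a c : ℝ, gauge M ((-a) • e1 + c • e2) = gauge M (a • e1 + c • e2) := by
    intro a c
    have h1 := hκ (a + κ * (c * (gauge M b)⁻¹)) (c * (gauge M b)⁻¹)
    have x1 : (2 * κ * (c * (gauge M b)⁻¹) - (a + κ * (c * (gauge M b)⁻¹))) • e1 +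
        (c * (gauge M b)⁻¹) • y = (-a) • e1 + c • e2 := by
      rw [he2, hb]; module
    have x2 : (a + κ * (c * (gauge M b)⁻¹)) • e1 + (c * (gauge M b)⁻¹) • y =
        a • e1 + c • e2 := by
      rw [he2, hb]; module
    rwa [x1, x2] at h1
  have hPN : PN (fun a c => gauge M (a • e1 + c • e2)) := by
    refine ⟨?_, ?_, hsgn, ?_, ?_, ?_⟩
    · intro a c a' c'
      have : (a + a') • e1 + (c + c') • e2 = (a • e1 + c • e2) + (a' • e1 + c' • e2) := by module
      rw [this]
      exact hSB.add _ _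
    · intro t a c
      rw [← hSB.smul]
      congr 1
      module
    · rw [one_smul, zero_smul, add_zero, hNe1]
    · rw [one_smul, zero_smul, zero_add, hNe2]
    · intro v w hvw
      have hr2 : 0 < v ^ 2 + w ^ 2 := by
        rcases hvw with h0 | h0 <;> positivity
      have hU : v • e1 + w • e2 ≠ 0 := by
        intro h0
        have h1 := hsgn v w
        rw [h0, gauge_zero] at h1
        have h2 := hSB.zero h1
        have h3 : (2 * w) • e2 = 0 := by
          have : (2 * w) • e2 = (v • e1 + w • e2) + ((-v) • e1 + w • e2) := by module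
          rw [this, h0, h2, add_zero]
        have h4 : (2 * v) • e1 = 0 := by
          have : (2 * v) • e1 = (v • e1 + w • e2) - ((-v) • e1 + w • e2) := by module
          rw [this, h0, h2, sub_zero]
        have h5 : e2 ≠ 0 := by
          intro h6
          rw [h6, gauge_zero] at hNe2
          exact zero_ne_one hNe2
        rcases smul_eq_zero.1 h3 with h6 | h6
        · rcases smul_eq_zero.1 h4 with h7 | h7
          · have : v = 0 := by linarith
            have : w = 0 := by linarith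
            rcases hvw with h8 | h8 <;> exact h8 (by assumption)
          · exact he10 h7
        · exact h5 h6
      obtain ⟨k, hk⟩ := refl_gauge h hn hU (w • e1 - v • e2)
      refine ⟨(v - k * w) / (v ^ 2 + w ^ 2), (w + k * v) / (v ^ 2 + w ^ 2), ?_, ?_⟩
      · field_simp; ring
      · intro a c
        have h1 := hk ((a * v + c * w) / (v ^ 2 + w ^ 2)) ((a * w - c * v) / (v ^ 2 + w ^ 2))
        have x2 : ((a * v + c * w) / (v ^ 2 + w ^ 2)) • (v • e1 + w • e2) +
            ((a * w - c * v) / (v ^ 2 + w ^ 2)) • (w • e1 - v • e2) = a • e1 + c • e2 := by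
          have y1 : ((a * v + c * w) / (v ^ 2 + w ^ 2)) * v +
            ((a * w - c * v) / (v ^ 2 + w ^ 2)) * w = a := by field_simp; ring
          have y2 : ((a * v + c * w) / (v ^ 2 + w ^ 2)) * w -
            ((a * w - c * v) / (v ^ 2 + w ^ 2)) * v = c := by field_simp; ring
          have y3 : ((a * v + c * w) / (v ^ 2 + w ^ 2)) • (v • e1 + w • e2) +
            ((a * w - c * v) / (v ^ 2 + w ^ 2)) • (w • e1 - v • e2) =
            (((a * v + c * w) / (v ^ 2 + w ^ 2)) * v +
            ((a * w - c * v) / (v ^ 2 + w ^ 2)) * w) • e1 + (((a * v + c * w) / (v ^ 2 + w ^ 2)) * w -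
            ((a * w - c * v) / (v ^ 2 + w ^ 2)) * v) • e2 := by module
          rw [y3, y1, y2]
        have x1 : (2 * k * ((a * w - c * v) / (v ^ 2 + w ^ 2)) -
            (a * v + c * w) / (v ^ 2 + w ^ 2)) • (v • e1 + w • e2) +
            ((a * w - c * v) / (v ^ 2 + w ^ 2)) • (w • e1 - v • e2) =
            (a - 2 * ((v - k * w) / (v ^ 2 + w ^ 2) * a + (w + k * v) / (v ^ 2 + w ^ 2) * c) * v) •
              e1 + (c - 2 * ((v - k * w) / (v ^ 2 + w ^ 2) * a +
              (w + k * v) / (v ^ 2 + w ^ 2) * c) * w) • e2 := by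
          have y1 : (2 * k * ((a * w - c * v) / (v ^ 2 + w ^ 2)) -
            (a * v + c * w) / (v ^ 2 + w ^ 2)) * v + ((a * w - c * v) / (v ^ 2 + w ^ 2)) * w =
            a - 2 * ((v - k * w) / (v ^ 2 + w ^ 2) * a + (w + k * v) / (v ^ 2 + w ^ 2) * c) * v := by
            field_simp; ring
          have y2 : (2 * k * ((a * w - c * v) / (v ^ 2 + w ^ 2)) -
            (a * v + c * w) / (v ^ 2 + w ^ 2)) * w - ((a * w - c * v) / (v ^ 2 + w ^ 2)) * v =
            c - 2 * ((v - k * w) / (v ^ 2 + w ^ 2) * a + (w + k * v) / (v ^ 2 + w ^ 2) * c) * w := by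
            field_simp; ring
          rw [← y1, ← y2]
          module
        rw [x1, x2] at h1
        exact h1
  have hE : ∀ a c : ℝ, gauge M (a • e1 + c • e2) = √(a ^ 2 + c ^ 2) := fun a c => hPN.euclid a c
  have c1 : x + y = (gauge M x - κ) • e1 + gauge M b • e2 := by
    rw [← hbe]
    nth_rw 1 [hxe, hyb]
    module
  have c2 : x - y = (gauge M x + κ) • e1 + (-gauge M b) • e2 := by
    rw [neg_smul, ← hbe]
    nth_rw 1 [hxe, hyb]
    module
  have c3 : y = (-κ) • e1 + gauge M b • e2 := by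
    rw [← hbe]
    nth_rw 1 [hyb]
    module
  have d1 : gauge M (x + y) ^ 2 = (gauge M x - κ) ^ 2 + gauge M b ^ 2 := by
    rw [c1, hE, Real.sq_sqrt (by positivity)]
  have d2 : gauge M (x - y) ^ 2 = (gauge M x + κ) ^ 2 + gauge M b ^ 2 := by
    rw [c2, hE, Real.sq_sqrt (by positivity)]; ring
  have d3 : gauge M y ^ 2 = κ ^ 2 + gauge M b ^ 2 := by
    rw [c3, hE, Real.sq_sqrt (by positivity)]; ring
  rw [d1, d2, d3]
  ring

/-- **Extremal bodies are ellipsoids.** -/
theorem ellipsoid {M : Set (Ed n)} {D : ℝ} (h : Ext M D) (hn : 0 < n) :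
    ∃ T : Ed n ≃ₗ[ℝ] Ed n, M = T '' closedBall (0 : Ed n) 1 := by
  have hSB : SB M := ⟨h.compact, h.convex, h.int, h.symm⟩
  obtain ⟨T, hT⟩ := jvn (V := Ed n) (n := n) (by simp) (gauge M) (fun x => gauge_nonneg x)
    hSB.smul hSB.add (fun x hx => hSB.zero hx) (parallelogram h hn)
  refine ⟨T, ?_⟩
  ext x
  rw [hSB.mem_iff]
  constructor
  · intro hx
    refine ⟨T.symm x, ?_, T.apply_symm_apply x⟩
    rw [mem_closedBall_zero_iff, ← hT, T.apply_symm_apply]
    exact hx
  · rintro ⟨y, hy, rfl⟩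
    rw [hT]
    exact mem_closedBall_zero_iff.1 hy

end Q187.Mass
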