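import Pool.Agent.Q187.Mass.Round

/-!
# Boundary points of extremal bodies lie in maximal tuples
-/

set_option autoImplicit false

open MeasureTheory Set Filter Topology Metric Module
open scoped RealInnerProductSpace ENNReal

namespace Q187.Mass

open Pool.Agent.H318R3.St Q187.Steiner

variable {n : ℕ}

/-- extremal symmetric bodies -/
structure Ext (M : Set (Ed n)) (D : ℝ) : Prop where
  compact : IsCompact M
  convex : Convex ℝ M
  int : (interior M).Nonempty
  symm : ∀ x ∈ M, -x ∈ M
  bd : Bd M D
  vol : volume M = ENNReal.ofReal D * volume (ball (0 : Ed n) 1)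

lemma Ext.pos {M : Set (Ed n)} {D : ℝ} (h : Ext M D) : 0 < D := by
  by_contra hcon
  push Not at hcon
  have h1 := h.vol
  rw [ENNReal.ofReal_of_nonpos hcon, zero_mul] at h1
  have h2 := (isOpen_interior.measure_pos volume h.int).trans_le (measure_mono interior_subset)
  rw [h1] at h2
  exact lt_irrefl _ h2

lemma hull_bd {W : Set (Ed n)} {c : ℝ} (h : Bd W c) : Bd (convexHull ℝ W) c := by
  classical
  have key : ∀ (s : Finset (Fin n)) (v : Fin n → Ed n), (∀ i, v i ∈ convexHull ℝ W) →
      (∀ i, i ∉ s → v i ∈ W) → |Δ n v| ≤ c := by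
    intro s
    induction s using Finset.induction_on with
    | empty => exact fun v _ hv => h v fun i => hv i (Finset.notMem_empty i)
    | insert a s ha ih =>
      intro v hv hvs
      have hC : Convex ℝ {y : Ed n | |Δ n (Function.update v a y)| ≤ c} := by
        intro y hy z hz α β hα hβ hαβ
        simp only [mem_ofPred_eq] at hy hz ⊢
        rw [AlternatingMap.map_update_add, AlternatingMap.map_update_smul,
          AlternatingMap.map_update_smul, smul_eq_mul, smul_eq_mul]
        calc |α * Δ n (Function.update v a y) + β * Δ n (Function.update v a z)| ≤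
            |α * Δ n (Function.update v a y)| + |β * Δ n (Function.update v a z)| := abs_add_le _ _
          _ = α * |Δ n (Function.update v a y)| + β * |Δ n (Function.update v a z)| := by
              rw [abs_mul, abs_mul, abs_of_nonneg hα, abs_of_nonneg hβ]
          _ ≤ α * c + β * c := by gcongr
          _ = c := by rw [← add_mul, hαβ, one_mul]
      have hW : W ⊆ {y : Ed n | |Δ n (Function.update v a y)| ≤ c} := by
        intro y hy
        apply ih
        · intro i
          by_cases hi : i = a
          · subst hi; rw [Function.update_self]; exact subset_convexHull ℝ W hy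
          · rw [Function.update_of_ne hi]; exact hv i
        · intro i hi
          by_cases hia : i = a
          · subst hia; rw [Function.update_self]; exact hy
          · rw [Function.update_of_ne hia]
            apply hvs
            simp [hia, hi]
      have h1 := convexHull_min hW hC (hv a)
      simpa using h1
  intro v hv
  exact key Finset.univ v hv fun i hi => absurd (Finset.mem_univ i) hi

lemma two_par {v : Fin n → Ed n} {z : Ed n} {i j : Fin n} (hij : i ≠ j) {a b : ℝ}
    (hi : v i = a • z) (hj : v j = b • z) : Δ n v = 0 := by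
  classical
  have h1 : v = Function.update (Function.update v i (a • z)) j (b • z) := by
    rw [← hi, ← hj]
    simp
  rw [h1, AlternatingMap.map_update_smul, Function.update_comm hij,
    AlternatingMap.map_update_smul, smul_eq_mul, smul_eq_mul]
  have h2 : Δ n (Function.update (Function.update v j z) i z) = 0 := by
    apply AlternatingMap.map_eq_zero_of_eq _ _ (i := i) (j := j) _ hij
    simp [Function.update_of_ne hij.symm]
  rw [h2]; ring

theorem Ext.point {M : Set (Ed n)} {D : ℝ} (h : Ext M D) (hn : 0 < n) {x : Ed n} (hx : x ∈ M)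
    (hbd : ∀ μ : ℝ, 1 < μ → μ • x ∉ M) :
    ∃ (i : Fin n) (v : Fin n → Ed n), (∀ j, v j ∈ M) ∧ v i = x ∧ |Δ n v| = D := by
  classical
  by_contra hcon
  push Not at hcon
  have hD := h.pos
  -- compactness
  set S : Set (Fin n → Ed n) := {v | (∀ j, v j ∈ M) ∧ ∃ i, v i = x} with hS
  have hSc : IsCompact S := by
    have h1 : IsCompact {v : Fin n → Ed n | ∀ j, v j ∈ M} := isCompact_pi_infinite fun _ => h.compact
    have h2 : S = {v : Fin n → Ed n | ∀ j, v j ∈ M} ∩ ⋃ i, {v : Fin n → Ed n | v i = x} := by
      ext v
      simp only [hS, mem_ofPred_eq, mem_inter_iff, mem_iUnion]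
    rw [h2]
    apply h1.inter_right
    apply isClosed_iUnion_of_finite
    intro i
    exact isClosed_eq (continuous_apply i) continuous_const
  have hSne : S.Nonempty := ⟨fun _ => x, fun _ => hx, ⟨0, hn⟩, rfl⟩
  obtain ⟨w, hwS, hmax⟩ := hSc.exists_isMaxOn hSne (Δ_cont.abs).continuousOn
  set μ := |Δ n w| with hμ
  have hμD : μ < D := by
    obtain ⟨i, hi⟩ := hwS.2
    exact lt_of_le_of_ne (h.bd w hwS.1) (hcon i w hwS.1 hi)
  have hμ0 : 0 ≤ μ := abs_nonneg _
  set lam := 2 * D / (D + μ) with hlam
  have hlam1 : 1 < lam := by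
    rw [hlam, one_lt_div (by linarith)]; linarith
  have hlamμ : lam * μ ≤ D := by
    rw [hlam, div_mul_eq_mul_div, div_le_iff₀ (by linarith)]
    nlinarith
  set z := lam • x with hz
  have hzM : z ∉ M := hbd lam hlam1
  set W : Set (Ed n) := M ∪ segment ℝ (-z) z with hW
  have hseg : ∀ y ∈ segment ℝ (-z) z, ∃ τ : ℝ, |τ| ≤ 1 ∧ y = τ • z := by
    rintro y ⟨a, b, ha, hb, hab, rfl⟩
    refine ⟨b - a, ?_, by module⟩
    rw [abs_le]; constructor <;> linarith
  have hWbd : Bd W D := by
    intro v hv
    by_cases h1 : ∀ i, v i ∈ M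
    · exact h.bd v h1
    · push Not at h1
      obtain ⟨i, hi⟩ := h1
      have hi' : v i ∈ segment ℝ (-z) z := (hv i).resolve_left hi
      obtain ⟨τ, hτ, hvi⟩ := hseg _ hi'
      by_cases h2 : ∀ j, j ≠ i → v j ∈ M
      · have e : v = Function.update v i (τ • lam • x) := by
          rw [← hz, ← hvi]; simp
        rw [e, AlternatingMap.map_update_smul, AlternatingMap.map_update_smul, smul_eq_mul,
          smul_eq_mul, abs_mul, abs_mul, abs_of_pos (by linarith : 0 < lam)]
        have hS' : Function.update v i x ∈ S := by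
          refine ⟨fun j => ?_, i, by simp⟩
          by_cases hj : j = i
          · subst hj; simpa using hx
          · rw [Function.update_of_ne hj]; exact h2 j hj
        have h3 : |Δ n (Function.update v i x)| ≤ μ := hmax hS'
        have h4 : 0 ≤ |Δ n (Function.update v i x)| := abs_nonneg _
        calc |τ| * (lam * |Δ n (Function.update v i x)|) ≤ 1 * (lam * μ) := by
              gcongr
          _ ≤ D := by linarith
      · push Not at h2
        obtain ⟨j, hji, hj⟩ := h2
        have hj' : v j ∈ segment ℝ (-z) z := (hv j).resolve_left hj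
        obtain ⟨σ, hσ, hvj⟩ := hseg _ hj'
        rw [two_par hji.symm hvi hvj, abs_zero]
        exact hD.le
  set M' := convexHull ℝ W with hM'
  have hM'eq : M' = (fun p : ℝ × Ed n × Ed n => (1 - p.1) • p.2.1 + p.1 • p.2.2) ''
      (Icc (0 : ℝ) 1 ×ˢ (M ×ˢ segment ℝ (-z) z)) := by
    rw [hM', hW, h.convex.convexHull_union (convex_segment _ _) ⟨x, hx⟩
      ⟨z, right_mem_segment ℝ _ _⟩]
    ext y
    simp only [mem_convexJoin, mem_image, mem_prod, Prod.exists, mem_Icc]
    constructor
    · rintro ⟨a, ha, b, hb, s, t, hs, ht, hst, rfl⟩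
      refine ⟨t, a, b, ⟨⟨ht, by linarith⟩, ha, hb⟩, ?_⟩
      have : s = 1 - t := by linarith
      rw [this]
    · rintro ⟨t, a, b, ⟨⟨ht0, ht1⟩, ha, hb⟩, rfl⟩
      exact ⟨a, ha, b, hb, 1 - t, t, by linarith, ht0, by ring, rfl⟩
  have hsegc : IsCompact (segment ℝ (-z) z) := by
    rw [segment_eq_image]
    exact isCompact_Icc.image (by fun_prop)
  have hM'c : IsCompact M' := by
    rw [hM'eq]
    exact (isCompact_Icc.prod (h.compact.prod hsegc)).image (by fun_prop)
  have hsub : M ⊆ M' := subset_union_left.trans (subset_convexHull ℝ W)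
  have hM'conv : Convex ℝ M' := convex_convexHull ℝ W
  have hv1 := vol_le hM'c hM'conv (h.int.mono (interior_mono hsub)) (hull_bd hWbd)
  rw [← h.vol] at hv1
  have hnull : volume (M' \ M) = 0 := by
    rw [measure_sdiff hsub h.compact.measurableSet.nullMeasurableSet h.compact.measure_lt_top.ne]
    exact tsub_eq_zero_of_le hv1
  have hne : volume M' ≠ 0 :=
    (((isOpen_interior.measure_pos volume h.int).trans_le (measure_mono interior_subset)).trans_le
      (measure_mono hsub)).ne'
  have hfin := subset_of_ae hM'conv hM'c.isClosed h.compact.isClosed hne hnull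
  exact hzM (hfin (subset_convexHull ℝ W (Or.inr (right_mem_segment ℝ _ _))))

end Q187.Mass
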