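import Pool.Agent.Q187.Mass.Supp

/-!
# Extremal bodies: the midpoints of parallel chords in a central plane are collinear
-/

set_option autoImplicit false

open MeasureTheory Set Filter Topology Metric Module
open scoped RealInnerProductSpace ENNReal

namespace Q187.Mass

open Pool.Agent.H318R3.St Q187.Steiner

variable {n : ℕ}

theorem reflect {M : Set (Ed n)} {D : ℝ} (h : Ext M D) (hn : 0 < n) {u : Ed n} (hu : ‖u‖ = 1)
    {z : Ed n} (hz : ⟪z, u⟫ = 0) :
    ∃ κ : ℝ, ∀ τ s : ℝ, τ • z + s • u ∈ M → τ • z + (2 * κ * τ - s) • u ∈ M := by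
  have hD := h.pos
  have h0M : (0 : Ed n) ∈ M := interior_subset (zero_int h.convex h.symm h.int)
  have hscale : ∀ (c : ℝ) (x : Ed n), 0 ≤ c → c ≤ 1 → x ∈ M → c • x ∈ M := by
    intro c x hc0 hc1 hx
    have := h.convex hx h0M hc0 (by linarith : 0 ≤ 1 - c) (by ring)
    simpa using this
  have hS := ext_sym h hu
  have hzτ : ∀ τ : ℝ, ⟪τ • z, u⟫ = 0 := by
    intro τ; rw [inner_smul_left, hz]; simp
  set C : ℝ → Set ℝ := fun τ => chord u (τ • z) M with hC
  set A : ℝ → ℝ := fun τ => sInf (C τ) with hA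
  set B : ℝ → ℝ := fun τ => sSup (C τ) with hB
  have hIcc : ∀ τ, (C τ).Nonempty → A τ ≤ B τ ∧ C τ = Icc (A τ) (B τ) := by
    intro τ hne
    rcases chord_cases hu (τ • z) h.compact h.convex with h1 | ⟨a, b, hab, h1⟩
    · exfalso
      have h2 : C τ = ∅ := h1
      rw [h2] at hne
      exact Set.not_nonempty_empty hne
    · have h2 : C τ = Icc a b := h1
      have hAa : A τ = a := by rw [hA]; simp only; rw [h2, csInf_Icc hab]
      have hBb : B τ = b := by rw [hB]; simp only; rw [h2, csSup_Icc hab]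
      rw [hAa, hBb]
      exact ⟨hab, h2⟩
  set I : Set ℝ := {τ | 0 < τ ∧ ∃ lam : ℝ, 1 < lam ∧ (C (lam * τ)).Nonempty} with hI
  have hCne : ∀ τ ∈ I, (C τ).Nonempty := by
    rintro τ ⟨hτ, lam, hlam, s, hs⟩
    refine ⟨lam⁻¹ * s, ?_⟩
    have h1 : (lam * τ) • z + s • u ∈ M := hs
    have h2 := hscale lam⁻¹ _ (by positivity) (inv_le_one_of_one_le₀ hlam.le) h1
    show τ • z + (lam⁻¹ * s) • u ∈ M
    have e : lam⁻¹ • ((lam * τ) • z + s • u) = τ • z + (lam⁻¹ * s) • u := by
      rw [smul_add, smul_smul, smul_smul]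
      congr 2
      field_simp
    rwa [e] at h2
  have hIord : ∀ a ∈ I, ∀ b ∈ I, Icc a b ⊆ I := by
    rintro a ⟨ha, -⟩ b ⟨hb, lam, hlam, s, hs⟩ t ⟨hat, htb⟩
    refine ⟨lt_of_lt_of_le ha hat, lam, hlam, (t / b) * s, ?_⟩
    have h1 : (lam * b) • z + s • u ∈ M := hs
    have h2 := hscale (t / b) _ (by apply div_nonneg <;> linarith)
      (by rw [div_le_one hb]; exact htb) h1
    show (lam * t) • z + (t / b * s) • u ∈ M
    have e : (t / b) • ((lam * b) • z + s • u) = (lam * t) • z + (t / b * s) • u := by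
      rw [smul_add, smul_smul, smul_smul]
      congr 2
      field_simp
    rwa [e] at h2
  have hvolC : ∀ τ, (C τ).Nonempty → (volume (chord u (τ • z) M)).toReal = B τ - A τ := by
    intro τ hne
    obtain ⟨h1, h2⟩ := hIcc τ hne
    have h3 : chord u (τ • z) M = Icc (A τ) (B τ) := h2
    rw [h3, Real.volume_Icc, ENNReal.toReal_ofReal (by linarith)]
  have hmemS : ∀ τ t, (C τ).Nonempty → 2 * |t| ≤ B τ - A τ → τ • z + t • u ∈ sym u M := by
    intro τ t hne ht
    rw [mem_sym_line hu (hzτ τ)]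
    refine ⟨hne, ?_⟩
    rw [hvolC τ hne]; exact ht
  obtain ⟨κ, hκ⟩ := oned (I := I) (fun τ hτ => hτ.1) hIord (fun τ => (B τ - A τ) / 2)
    (fun τ => (A τ + B τ) / 2) (by
    intro τ hτ
    have hτC := hCne τ hτ
    obtain ⟨hAB, hCτ⟩ := hIcc τ hτC
    obtain ⟨hτ0, lam, hlam, hlamC⟩ := hτ
    set g := (B τ - A τ) / 2 with hg
    have hg0 : 0 ≤ g := by rw [hg]; linarith
    set w : Ed n := τ • z + g • u with hw
    have hwS : w ∈ sym u M := hmemS τ g hτC (by rw [abs_of_nonneg hg0, hg]; linarith)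
    have hbd : ∀ μ : ℝ, 1 < μ → μ • w ∉ sym u M := by
      intro μ hμ hmem
      have h1 : w ∈ interior (sym u M) := by
        have h2 := hS.convex.combo_interior_self_mem_interior
          (zero_int hS.convex hS.symm hS.int) hmem (a := 1 - μ⁻¹) (b := μ⁻¹)
          (by have := inv_lt_one_of_one_lt₀ hμ; linarith) (by positivity) (by ring)
        rwa [smul_zero, zero_add, smul_smul, inv_mul_cancel₀ (by linarith), one_smul] at h2
      have hcont : Continuous fun t : ℝ => w + t • u := by fun_prop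
      have h2 : ∀ᶠ t in 𝓝 (0 : ℝ), w + t • u ∈ interior (sym u M) := by
        apply hcont.continuousAt.eventually
        apply isOpen_interior.mem_nhds
        simpa using h1
      obtain ⟨δ, hδ, hball⟩ := Metric.eventually_nhds_iff.1 h2
      have h3 := interior_subset (hball (y := δ / 2) (by
        rw [Real.dist_eq, sub_zero, abs_of_pos (by linarith)]; linarith))
      have h4 : w + (δ / 2) • u = τ • z + (g + δ / 2) • u := by
        rw [hw, add_smul]; abel
      rw [h4, mem_sym_line hu (hzτ τ), hvolC τ hτC, abs_of_pos (by linarith)] at h3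
      have := h3.2
      rw [hg] at this
      linarith
    obtain ⟨φ, ℓ, hφS, hφw, hφM, hℓu, hp, hq⟩ := ext_supp h hn hu hwS hbd
    have hℓw : ℓ w = τ * ℓ z := by
      rw [hw, map_add, map_smul, map_smul, hℓu]; simp
    have hmid : ℓ w = (A τ + B τ) / 2 := by
      have h1 : g + ℓ w ∈ C τ := by
        show τ • z + (g + ℓ w) • u ∈ M
        have e : w + ℓ w • u = τ • z + (g + ℓ w) • u := by
          nth_rw 1 [hw]
          rw [add_smul]; abel
        rwa [e] at hp
      have h2 : ℓ w - g ∈ C τ := by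
        show τ • z + (ℓ w - g) • u ∈ M
        have e : w - ℓ w • u = τ • z + (g - ℓ w) • u := by
          nth_rw 1 [hw]
          rw [sub_smul]; abel
        rw [e, refl_line hu (hzτ τ)] at hq
        have e2 : τ • z - (g - ℓ w) • u = τ • z + (ℓ w - g) • u := by
          rw [sub_smul, sub_smul]; abel
        rwa [e2] at hq
      rw [hCτ] at h1 h2
      have h3 := h1.2
      have h4 := h2.1
      rw [hg] at h3 h4
      linarith
    set c := φ u with hc
    have hφw' : τ * φ z + g * c = D := by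
      rw [← hφw, hw, map_add, map_smul, map_smul]; simp [hc]
    have hcpos : 0 < c := by
      by_contra hcon
      push Not at hcon
      have h1 : D ≤ τ * φ z := by nlinarith
      have h2 : (lam * τ) • z + (0 : ℝ) • u ∈ sym u M := by
        apply hmemS _ _ hlamC
        have := (hIcc _ hlamC).1
        simp only [abs_zero, mul_zero]
        linarith
      have h3 := hφS _ h2
      rw [zero_smul, add_zero, map_smul, smul_eq_mul] at h3
      nlinarith
    refine ⟨-(φ z / c), fun σ hσ => ?_⟩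
    have hσC := hCne σ hσ
    obtain ⟨hAB', hCσ⟩ := hIcc σ hσC
    have hτz : ∀ σ : ℝ, g + -(φ z / c) * (σ - τ) = (D - σ * φ z) / c := by
      intro σ
      rw [← hφw']
      field_simp
      ring
    constructor
    · have h1 : σ • z + ((B σ - A σ) / 2) • u ∈ sym u M := hmemS σ _ hσC (by
        rw [abs_of_nonneg (by linarith)]; linarith)
      have h2 := hφS _ h1
      rw [map_add, map_smul, map_smul, smul_eq_mul, smul_eq_mul] at h2
      show (B σ - A σ) / 2 ≤ g + -(φ z / c) * (σ - τ)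
      rw [hτz, le_div_iff₀ hcpos]
      linarith
    · have h1 : σ • z + (B σ) • u ∈ M := by
        have : B σ ∈ C σ := by rw [hCσ]; exact right_mem_Icc.2 hAB'
        exact this
      have h2 := hφM _ h1
      rw [map_sub, map_add, map_smul, map_smul, map_smul, map_add, map_smul, map_smul, hℓu] at h2
      simp only [smul_eq_mul, mul_zero, add_zero] at h2
      show (A σ + B σ) / 2 + (B σ - A σ) / 2 ≤ g + -(φ z / c) * (σ - τ) +
        σ / τ * ((A τ + B τ) / 2)
      rw [hτz, ← hmid, hℓw]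
      have e : σ / τ * (τ * ℓ z) = σ * ℓ z := by field_simp
      rw [e]
      have h3 : (B σ - σ * ℓ z) * c ≤ D - σ * φ z := by
        have : σ * φ z + B σ * φ u - σ * ℓ z * φ u ≤ D := by linarith
        rw [hc]
        linarith
      have h4 := (le_div_iff₀ hcpos).2 h3
      linarith)
  have hpos : ∀ τ s : ℝ, 0 < τ → τ • z + s • u ∈ M → τ • z + (2 * κ * τ - s) • u ∈ M := by
    intro τ s hτ hmem
    have hρ : ∀ ρ : ℝ, 0 < ρ → ρ < 1 → ρ • (τ • z + (2 * κ * τ - s) • u) ∈ M := by
      intro ρ hρ0 hρ1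
      have hρI : ρ * τ ∈ I := by
        refine ⟨by positivity, ρ⁻¹, (one_lt_inv₀ hρ0).2 hρ1, s, ?_⟩
        show (ρ⁻¹ * (ρ * τ)) • z + s • u ∈ M
        have : ρ⁻¹ * (ρ * τ) = τ := by field_simp
        rwa [this]
      have h1 := hscale ρ _ hρ0.le hρ1.le hmem
      have e1 : ρ • (τ • z + s • u) = (ρ * τ) • z + (ρ * s) • u := by
        rw [smul_add, smul_smul, smul_smul]
      rw [e1] at h1
      have h2 : ρ * s ∈ C (ρ * τ) := h1
      obtain ⟨hAB, hCρ⟩ := hIcc _ (hCne _ hρI)
      have h3 := hκ _ hρI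
      have h4 : 2 * κ * (ρ * τ) - ρ * s ∈ C (ρ * τ) := by
        rw [hCρ] at h2 ⊢
        constructor
        · linarith [h2.2]
        · linarith [h2.1]
      have h5 : (ρ * τ) • z + (2 * κ * (ρ * τ) - ρ * s) • u ∈ M := h4
      have e2 : ρ • (τ • z + (2 * κ * τ - s) • u) =
          (ρ * τ) • z + (2 * κ * (ρ * τ) - ρ * s) • u := by
        rw [smul_add, smul_smul, smul_smul]
        congr 2
        ring
      rwa [e2]
    have hcont : Continuous fun ρ : ℝ => ρ • (τ • z + (2 * κ * τ - s) • u) := by fun_prop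
    have hlim : Tendsto (fun ρ : ℝ => ρ • (τ • z + (2 * κ * τ - s) • u)) (𝓝[<] 1)
        (𝓝 ((1 : ℝ) • (τ • z + (2 * κ * τ - s) • u))) :=
      (hcont.tendsto 1).mono_left nhdsWithin_le_nhds
    rw [one_smul] at hlim
    apply h.compact.isClosed.mem_of_tendsto hlim
    have h6 : Ioo (0 : ℝ) 1 ∈ 𝓝[<] (1 : ℝ) := Ioo_mem_nhdsLT (by norm_num)
    filter_upwards [h6] with ρ hρ'
    exact hρ ρ hρ'.1 hρ'.2
  refine ⟨κ, fun τ s hmem => ?_⟩
  rcases lt_trichotomy τ 0 with hτ | hτ | hτ
  · have h1 := h.symm _ hmem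
    have e1 : -(τ • z + s • u) = (-τ) • z + (-s) • u := by rw [neg_smul, neg_smul]; abel
    rw [e1] at h1
    have h2 := h.symm _ (hpos (-τ) (-s) (by linarith) h1)
    have e2 : -((-τ) • z + (2 * κ * -τ - -s) • u) = τ • z + (2 * κ * τ - s) • u := by module
    rwa [e2] at h2
  · have h1 := h.symm _ hmem
    have e1 : -(τ • z + s • u) = τ • z + (2 * κ * τ - s) • u := by rw [hτ]; module
    rwa [e1] at h1
  · exact hpos τ s hτ hmem

end Q187.Mass
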