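import Pool.Agent.Q187.Mass.Strict

/-!
# `vol K ≤ κ_n c` if all determinants of `n` points of `K` are at most `c`
-/

set_option autoImplicit false

open MeasureTheory Set Filter Topology Metric Module
open scoped RealInnerProductSpace ENNReal

namespace Q187.Mass

open Pool.Agent.H318R3.St Q187.Steiner

section ball

variable {E : Type*} [NormedAddCommGroup E] [InnerProductSpace ℝ E]

lemma refl_swap {p q : E} (h : ‖p‖ = ‖q‖) (hne : p ≠ q) :
    refl ((‖p - q‖)⁻¹ • (p - q)) p = q := by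
  have h0 : p - q ≠ 0 := sub_ne_zero.2 hne
  have hn : 0 < ‖p - q‖ := norm_pos_iff.2 h0
  have hu : ‖(‖p - q‖)⁻¹ • (p - q)‖ = 1 := by
    rw [norm_smul, norm_inv, norm_norm, inv_mul_cancel₀ hn.ne']
  rw [refl_apply hu, inner_smul_right]
  have h1 : ‖p - q‖ ^ 2 = 2 * ⟪p, p - q⟫ := by
    rw [norm_sub_sq_real, inner_sub_right, real_inner_self_eq_norm_sq, ← h]
    ring
  rw [smul_smul]
  have h2 : 2 * (‖p - q‖⁻¹ * ⟪p, p - q⟫) * ‖p - q‖⁻¹ = 1 := by
    field_simp
    linarith
  rw [h2, one_smul]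
  abel

lemma ball_of_symm {L : Set E} (hL : IsCompact L) (hne : L.Nonempty) (hc : Convex ℝ L)
    (hs : ∀ u : E, ‖u‖ = 1 → ∀ p ∈ L, refl u p ∈ L) : ∃ r : ℝ, 0 ≤ r ∧ L = closedBall 0 r := by
  obtain ⟨p, hp, hmax⟩ := hL.exists_isMaxOn hne continuous_norm.continuousOn
  refine ⟨‖p‖, norm_nonneg _, Subset.antisymm ?_ ?_⟩
  · intro y hy
    rw [mem_closedBall_zero_iff]
    exact hmax hy
  · have hsph : ∀ q : E, ‖q‖ = ‖p‖ → q ∈ L := by
      intro q hq
      by_cases hpq : p = q
      · rw [← hpq]; exact hp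
      · have h0 : p - q ≠ 0 := sub_ne_zero.2 hpq
        have hn : 0 < ‖p - q‖ := norm_pos_iff.2 h0
        have hu : ‖(‖p - q‖)⁻¹ • (p - q)‖ = 1 := by
          rw [norm_smul, norm_inv, norm_norm, inv_mul_cancel₀ hn.ne']
        have := hs _ hu p hp
        rwa [refl_swap hq.symm hpq] at this
    intro y hy
    rw [mem_closedBall_zero_iff] at hy
    by_cases hy0 : y = 0
    · have h1 := hc hp (hsph (-p) (norm_neg p)) (a := 1 / 2) (b := 1 / 2) (by norm_num)
        (by norm_num) (by norm_num)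
      rw [hy0]
      have e : (1 / 2 : ℝ) • p + (1 / 2 : ℝ) • -p = 0 := by module
      rwa [e] at h1
    · have hn : 0 < ‖y‖ := norm_pos_iff.2 hy0
      have hr : 0 < ‖p‖ := lt_of_lt_of_le hn hy
      set q : E := (‖p‖ / ‖y‖) • y with hq
      have hqn : ‖q‖ = ‖p‖ := by
        rw [hq, norm_smul, norm_div, norm_norm, norm_norm]
        field_simp
      have h1 := hc (hsph q hqn) (hsph (-q) (by rw [norm_neg, hqn]))
        (a := (1 + ‖y‖ / ‖p‖) / 2) (b := (1 - ‖y‖ / ‖p‖) / 2) (by positivity)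
        (by
          have : ‖y‖ / ‖p‖ ≤ 1 := by rw [div_le_one hr]; exact hy
          linarith) (by ring)
      have e : ((1 + ‖y‖ / ‖p‖) / 2) • q + ((1 - ‖y‖ / ‖p‖) / 2) • -q = y := by
        have e1 : ((1 + ‖y‖ / ‖p‖) / 2) • q + ((1 - ‖y‖ / ‖p‖) / 2) • -q =
          (‖y‖ / ‖p‖) • q := by module
        rw [e1, hq, smul_smul]
        have : ‖y‖ / ‖p‖ * (‖p‖ / ‖y‖) = 1 := by field_simp
        rw [this, one_smul]
      rwa [e] at h1

end ball

variable {n : ℕ}

lemma Bd_limit {A : ℕ → Set (Ed n)} {B : Set (Ed n)} (hA : ∀ k, (A k).Nonempty)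
    (hB : B.Nonempty) (hA' : ∀ k, IsCompact (A k)) (hB' : IsCompact B)
    (hlim : Tendsto (fun k => hausdorffDist (A k) B) atTop (𝓝 0)) {c : ℝ}
    (h : ∀ k, Bd (A k) c) : Bd B c := by
  intro v hv
  by_contra hcon
  push Not at hcon
  have hcont : Continuous fun v : Fin n → Ed n => |Δ n v| := Δ_cont.abs
  obtain ⟨δ, hδ, hball⟩ := Metric.isOpen_iff.1 (isOpen_lt continuous_const hcont) v hcon
  obtain ⟨k, hk⟩ := (hlim.eventually_lt_const hδ).exists
  have hex : ∀ i, ∃ y ∈ A k, dist y (v i) < δ := by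
    intro i
    exact exists_dist_lt_of_hausdorffDist_lt' (hv i) hk (haus_fin (hA k) hB (hA' k) hB')
  choose w hw hwd using hex
  have h1 : w ∈ ball v δ := by
    rw [mem_ball, dist_pi_lt_iff hδ]
    exact hwd
  have h2 := hball h1
  have h3 := h k w hw
  exact absurd h3 (not_le.2 h2)

lemma Δ_ball {r c : ℝ} (hr : 0 ≤ r) (h : Bd (closedBall (0 : Ed n) r) c) : r ^ n ≤ c := by
  have h1 := h (fun i => r • EuclideanSpace.basisFun (Fin n) ℝ i) (fun i => by
    rw [mem_closedBall_zero_iff, norm_smul]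
    simp [abs_of_nonneg hr])
  have h2 : Δ n (fun i => r • EuclideanSpace.basisFun (Fin n) ℝ i) = r ^ n := by
    have e := (Δ n).toMultilinearMap.map_smul_univ (fun _ => r)
      (fun i => EuclideanSpace.basisFun (Fin n) ℝ i)
    have e2 : Δ n (fun i => EuclideanSpace.basisFun (Fin n) ℝ i) = 1 := by
      have := (EuclideanSpace.basisFun (Fin n) ℝ).toBasis.det_self
      unfold Δ
      convert this using 2
      ext i
      simp
    have e3 : (Δ n).toMultilinearMap (fun i => EuclideanSpace.basisFun (Fin n) ℝ i) = 1 := e2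
    rw [e3] at e
    simpa using e
  rw [h2] at h1
  exact (le_abs_self _).trans h1

/-- **The inequality.** -/
theorem vol_le {K : Set (Ed n)} (hK : IsCompact K) (hc : Convex ℝ K)
    (hint : (interior K).Nonempty) {c : ℝ} (h : Bd K c) :
    volume K ≤ ENNReal.ofReal c * volume (ball (0 : Ed n) 1) := by
  obtain ⟨R, hR⟩ := hK.isBounded.subset_closedBall 0
  set V := volume K with hV
  have hV0 : V ≠ 0 :=
    ((isOpen_interior.measure_pos volume hint).trans_le (measure_mono interior_subset)).ne'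
  set Cls : Set (Set (Ed n)) := {L | IsCompact L ∧ L.Nonempty ∧ Convex ℝ L ∧
    L ⊆ closedBall 0 R ∧ volume L = V ∧ Bd L c} with hCls
  have hKC : K ∈ Cls := ⟨hK, hint.mono interior_subset, hc, hR, rfl, h⟩
  set I := sInf (J '' Cls) with hI
  have hIfin : I ≠ ⊤ := ((sInf_le (mem_image_of_mem J hKC)).trans_lt (J_lt_top hK)).ne
  have hseq : ∀ k : ℕ, ∃ L ∈ Cls, J L < I + ENNReal.ofReal (1 / ((k : ℝ) + 1)) := by
    intro k
    have hlt : I < I + ENNReal.ofReal (1 / ((k : ℝ) + 1)) := by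
      apply ENNReal.lt_add_right hIfin
      have : (0 : ℝ) < 1 / ((k : ℝ) + 1) := by positivity
      simpa using this
    obtain ⟨_, ⟨L, hL, rfl⟩, hL2⟩ := sInf_lt_iff.1 hlt
    exact ⟨L, hL, hL2⟩
  choose A hA hAJ using hseq
  obtain ⟨L, hL, hLn, hLc, hLR, φ, hφ, hlim⟩ := blaschke A R (fun k => (hA k).1)
    (fun k => (hA k).2.1) (fun k => (hA k).2.2.1) (fun k => (hA k).2.2.2.1)
  have hvolL : volume L = V := by
    have h1 := tendsto_lint (fun k => (hA (φ k)).2.1) hLn (fun k => (hA (φ k)).1) hL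
      (fun k => (hA (φ k)).2.2.1) hLc hlim (fun k => (hA (φ k)).2.2.2.1) (fun _ => 1)
      measurable_const (C := 1) ENNReal.one_ne_top (fun _ _ => le_rfl)
    simp only [setLIntegral_one, (hA _).2.2.2.2.1] at h1
    exact (tendsto_nhds_unique h1 tendsto_const_nhds)
  have hJlim : Tendsto (fun k => J (A (φ k))) atTop (𝓝 (J L)) :=
    tendsto_lint (fun k => (hA (φ k)).2.1) hLn (fun k => (hA (φ k)).1) hL
      (fun k => (hA (φ k)).2.2.1) hLc hlim (fun k => (hA (φ k)).2.2.2.1) _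
      (by fun_prop) (C := ENNReal.ofReal (R ^ 2)) ENNReal.ofReal_ne_top (by
        intro x hx
        apply ENNReal.ofReal_le_ofReal
        exact pow_le_pow_left₀ (norm_nonneg _) (mem_closedBall_zero_iff.1 hx) 2)
  have hJI : J L ≤ I := by
    have h0 : Tendsto (fun k : ℕ => I + ENNReal.ofReal (1 / ((φ k : ℝ) + 1))) atTop (𝓝 (I + 0)) := by
      apply Tendsto.const_add
      rw [← ENNReal.ofReal_zero]
      exact ((ENNReal.continuous_ofReal.tendsto 0).comp
        tendsto_one_div_add_atTop_nhds_zero_nat).comp hφ.tendsto_atTop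
    rw [add_zero] at h0
    exact le_of_tendsto_of_tendsto' hJlim h0 fun k => (hAJ (φ k)).le
  have hLBd : Bd L c := Bd_limit (fun k => (hA (φ k)).2.1) hLn (fun k => (hA (φ k)).1) hL hlim
    (fun k => (hA (φ k)).2.2.2.2.2)
  have hLint : (interior L).Nonempty := by
    by_contra hemp
    rw [not_nonempty_iff_eq_empty] at hemp
    apply hV0
    rw [← hvolL]
    have h1 := hLc.addHaar_frontier volume
    refine measure_mono_null ?_ h1
    intro x hx
    refine ⟨subset_closure hx, ?_⟩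
    rw [hemp]
    exact notMem_empty _
  have hsymm : ∀ u : Ed n, ‖u‖ = 1 → ∀ p ∈ L, refl u p ∈ L := by
    intro u hu p hp
    apply symm_of_J hu hL hLc hLint _ hp
    apply hJI.trans
    apply sInf_le
    exact ⟨sym u L, ⟨sym_isCompact hu hL hLc, sym_nonempty hu hL hLc hLn, sym_convex hu hL hLc,
      sym_subset_ball hu hL hLc hLR, (sym_volume hu hL hLc).trans hvolL,
      Bd_sym hu hL hLc hLBd⟩, rfl⟩
  obtain ⟨r, hr, hLr⟩ := ball_of_symm hL hLn hLc hsymm
  rw [hLr] at hLBd hvolL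
  have h1 := Δ_ball hr hLBd
  rw [← hvolL, Measure.addHaar_closedBall _ _ hr]
  gcongr
  simpa using h1

end Q187.Mass
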