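import Pool.Agent.Q187.Mass.Det
import Pool.Agent.Q187.Steiner.Basic

/-!
# Strictness of Steiner symmetrization for the moment of inertia
-/

set_option autoImplicit false

open MeasureTheory Set Filter Topology Metric Module
open scoped RealInnerProductSpace ENNReal

namespace Q187.Mass

open Pool.Agent.H318R3.St Q187.Steiner

variable {E : Type*} [NormedAddCommGroup E] [InnerProductSpace ℝ E] [FiniteDimensional ℝ E]
  [MeasurableSpace E] [BorelSpace E]

/-- moment of inertia -/
noncomputable def J (A : Set E) : ℝ≥0∞ := ∫⁻ x in A, ENNReal.ofReal (‖x‖ ^ 2)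

lemma int_Icc {a b C : ℝ} (hab : a ≤ b) (hC : 0 ≤ C) :
    ∫⁻ s in Icc a b, ENNReal.ofReal (C + s ^ 2) = ENNReal.ofReal (C * (b - a) + (b ^ 3 - a ^ 3) / 3) := by
  rw [← ofReal_integral_eq_lintegral_ofReal]
  · congr 1
    rw [integral_Icc_eq_integral_Ioc, ← intervalIntegral.integral_of_le hab,
      intervalIntegral.integral_add (by simp) (by
        apply Continuous.intervalIntegrable; fun_prop), intervalIntegral.integral_const,
      integral_pow]
    simp only [smul_eq_mul]
    norm_num
    ring
  · apply Continuous.integrableOn_Icc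
    fun_prop
  · filter_upwards with s
    positivity

/-- chord integral of `‖x‖²` -/
noncomputable def phi (u : E) (A : Set E) (x : E) : ℝ≥0∞ :=
  ∫⁻ s in chord u (foot u x) A, ENNReal.ofReal (‖foot u x + s • u‖ ^ 2)

lemma J_line {u : E} (hu : ‖u‖ = 1) {A : Set E} (hA : MeasurableSet A) :
    J A = ∫⁻ x in slab u, phi u A x :=
  setLIntegral_line hu _ (by fun_prop) hA

lemma phi_meas {u : E} {A : Set E} (hA : MeasurableSet A) : Measurable (phi u A) := by
  have e : (phi u A) =
      fun x : E => ∫⁻ s : ℝ, A.indicator (fun x => ENNReal.ofReal (‖x‖ ^ 2)) (foot u x + s • u) := by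
    ext x
    have hm : MeasurableSet (chord u (foot u x) A) := by
      apply hA.preimage; fun_prop
    unfold phi
    rw [← lintegral_indicator hm]
    rfl
  rw [e]
  apply Measurable.lintegral_prod_right'
    (f := fun p : E × ℝ => A.indicator (fun x => ENNReal.ofReal (‖x‖ ^ 2)) (foot u p.1 + p.2 • u))
  have hg : Measurable (fun x : E => ENNReal.ofReal (‖x‖ ^ 2)) := by fun_prop
  refine (hg.indicator hA).comp ?_
  apply Measurable.add
  · exact ((foot_continuous u).measurable).comp measurable_fst
  · fun_prop

omit [FiniteDimensional ℝ E] [MeasurableSpace E] [BorelSpace E] in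
lemma phi_Icc {u : E} (hu : ‖u‖ = 1) {A : Set E} {x : E} {a b : ℝ} (hab : a ≤ b)
    (h : chord u (foot u x) A = Icc a b) :
    phi u A x = ENNReal.ofReal (‖foot u x‖ ^ 2 * (b - a) + (b ^ 3 - a ^ 3) / 3) := by
  unfold phi
  rw [h, ← int_Icc hab (by positivity)]
  congr 1
  ext s
  rw [norm_line hu (foot_inner hu x)]

lemma phi_sym {u : E} (hu : ‖u‖ = 1) {A : Set E} {x : E} {a b : ℝ} (hab : a ≤ b)
    (h : chord u (foot u x) A = Icc a b) :
    phi u A x = phi u (sym u A) x + ENNReal.ofReal ((b - a) * (a + b) ^ 2 / 4) := by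
  rw [phi_Icc hu hab h, phi_Icc hu (by linarith) (chord_sym_Icc hu (foot_inner hu x) hab h),
    ← ENNReal.ofReal_add]
  · congr 1
    ring
  · have h1 : 0 ≤ b - a := by linarith
    have e : (((b - a) / 2) ^ 3 - (-((b - a) / 2)) ^ 3) / 3 = (b - a) ^ 3 / 12 := by ring
    rw [e]
    have h2 : (b - a) / 2 - -((b - a) / 2) = b - a := by ring
    rw [h2]
    positivity
  · have h1 : 0 ≤ b - a := by linarith
    positivity

lemma phi_le {u : E} (hu : ‖u‖ = 1) {A : Set E} (hA : IsCompact A) (hc : Convex ℝ A) (x : E) :
    phi u (sym u A) x ≤ phi u A x := by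
  rcases chord_cases hu (foot u x) hA hc with h | ⟨a, b, hab, h⟩
  · unfold phi
    rw [chord_sym_empty hu (foot_inner hu x) h]
    simp
  · rw [phi_sym hu hab h]
    exact le_self_add

lemma J_lt_top {A : Set E} (hA : IsCompact A) : J A < ⊤ := by
  obtain ⟨R, hR⟩ := hA.isBounded.subset_closedBall 0
  have h1 : J A ≤ ∫⁻ x in A, ENNReal.ofReal (R ^ 2) := by
    apply setLIntegral_mono measurable_const
    intro x hx
    apply ENNReal.ofReal_le_ofReal
    have := mem_closedBall_zero_iff.1 (hR hx)
    exact pow_le_pow_left₀ (norm_nonneg _) this 2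
  rw [setLIntegral_const] at h1
  exact h1.trans_lt (ENNReal.mul_lt_top ENNReal.ofReal_lt_top hA.measure_lt_top)

/-- If the moment of inertia does not drop then the body is symmetric. -/
theorem symm_of_J {u : E} (hu : ‖u‖ = 1) {L : Set E} (hL : IsCompact L) (hc : Convex ℝ L)
    (hint : (interior L).Nonempty) (hJ : J L ≤ J (sym u L)) {p : E} (hp : p ∈ L) :
    refl u p ∈ L := by
  by_contra hcon
  have hS := sym_isCompact hu hL hc
  have hae : phi u (sym u L) =ᵐ[volume.restrict (slab u)] phi u L := by
    apply ae_eq_of_ae_le_of_lintegral_le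
    · filter_upwards with x
      exact phi_le hu hL hc x
    · rw [← J_line hu hS.measurableSet]
      exact (J_lt_top hS).ne
    · exact (phi_meas hL.measurableSet).aemeasurable
    · rw [← J_line hu hS.measurableSet, ← J_line hu hL.measurableSet]
      exact hJ
  -- an interior point with reflection outside
  have hopen : IsOpen (refl u ⁻¹' Lᶜ) := hL.isClosed.isOpen_compl.preimage (refl u).continuous
  have hpc : p ∈ closure (interior L) := by
    rw [hc.closure_interior_eq_closure_of_nonempty_interior hint]
    exact subset_closure hp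
  obtain ⟨p', hp'1, hp'2⟩ := mem_closure_iff.1 hpc _ hopen hcon
  set O : Set E := interior L ∩ refl u ⁻¹' Lᶜ with hO
  have hOo : IsOpen O := isOpen_interior.inter hopen
  set s' : ℝ := ⟪p', u⟫ with hs'
  set B : Set E := {x : E | foot u x + s' • u ∈ O ∧ ⟪x, u⟫ ∈ Ioo (0 : ℝ) 1} with hB
  have hBo : IsOpen B := by
    apply IsOpen.inter
    · exact hOo.preimage (by have := foot_continuous u; fun_prop)
    · exact isOpen_Ioo.preimage (by fun_prop)
  have hBne : B.Nonempty := by
    have hf : foot u (foot u p' + (1 / 2 : ℝ) • u) = foot u p' := by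
      have h1 : ⟪foot u p' + (1 / 2 : ℝ) • u, u⟫ = 1 / 2 := by
        rw [inner_add_left, foot_inner hu, inner_smul_left, inner_self_one hu]
        simp
      unfold foot at h1 ⊢
      rw [h1]
      abel
    refine ⟨foot u p' + (1 / 2 : ℝ) • u, ?_, ?_⟩
    · rw [hf, foot_add]
      exact ⟨hp'2, hp'1⟩
    · rw [inner_add_left, foot_inner hu, inner_smul_left, inner_self_one hu]
      norm_num
  have hBpos : 0 < volume B := hBo.measure_pos _ hBne
  have hBslab : B ⊆ slab u := fun x hx => ⟨hx.2.1.le, hx.2.2.le⟩
  have hbad : ∀ x ∈ B, phi u (sym u L) x ≠ phi u L x := by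
    intro x hx
    obtain ⟨hx1, hx2⟩ := hx
    have hxL : s' ∈ chord u (foot u x) L := by
      show foot u x + s' • u ∈ L
      exact interior_subset hx1.1
    have hxr : -s' ∉ chord u (foot u x) L := by
      intro hh
      have h1 : refl u (foot u x + s' • u) ∈ Lᶜ := hx1.2
      rw [refl_line hu (foot_inner hu x)] at h1
      apply h1
      have h2 : foot u x + (-s') • u ∈ L := hh
      rwa [neg_smul, ← sub_eq_add_neg] at h2
    rcases chord_cases hu (foot u x) hL hc with h | ⟨a, b, hab, h⟩
    · rw [h] at hxL; exact absurd hxL (notMem_empty _)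
    · rw [phi_sym hu hab h]
      rw [h] at hxL hxr
      have hab' : a < b := by
        -- interior point of the chord
        have hcont : Continuous fun s : ℝ => foot u x + s • u := by fun_prop
        have hnhds : ∀ᶠ s in 𝓝 s', foot u x + s • u ∈ interior L :=
          hcont.continuousAt.eventually (isOpen_interior.mem_nhds hx1.1)
        have hIcc : Icc a b ∈ 𝓝 s' := by
          rw [← h]
          exact hnhds.mono fun s hs => interior_subset hs
        have h3 := Icc_mem_nhds_iff.1 hIcc
        exact h3.1.trans h3.2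
      have hne : a + b ≠ 0 := by
        intro h0
        apply hxr
        constructor <;> linarith [hxL.1, hxL.2]
      have hpos : 0 < (b - a) * (a + b) ^ 2 / 4 := by
        have : 0 < b - a := by linarith
        positivity
      have hfin : phi u (sym u L) x ≠ ⊤ := by
        rw [phi_Icc hu (by linarith) (chord_sym_Icc hu (foot_inner hu x) hab h)]
        exact ENNReal.ofReal_ne_top
      intro heq
      have h4 : phi u (sym u L) x < phi u (sym u L) x + ENNReal.ofReal ((b - a) * (a + b) ^ 2 / 4) :=
        ENNReal.lt_add_right hfin (by simpa using hpos)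
      exact absurd heq h4.ne
  have h1 := (ae_restrict_iff' (slab_meas u)).1 hae
  have h2 : volume B = 0 := by
    refine measure_mono_null ?_ h1
    intro x hx hh
    exact hbad x hx (hh (hBslab hx))
  exact absurd h2 hBpos.ne'

end Q187.Mass
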