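import Pool.Agent.Q187.Mass.Extr

/-!
# Extremal bodies have a linear reflection in every plane
-/

set_option autoImplicit false

open MeasureTheory Set Filter Topology Metric Module
open scoped RealInnerProductSpace ENNReal

namespace Q187.Mass

open Pool.Agent.H318R3.St Q187.Steiner

variable {n : ℕ}

lemma zero_int {E : Type*} [NormedAddCommGroup E] [NormedSpace ℝ E] {M : Set E}
    (hc : Convex ℝ M) (hs : ∀ x ∈ M, -x ∈ M) (hi : (interior M).Nonempty) : (0 : E) ∈ interior M := by
  obtain ⟨x, hx⟩ := hi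
  have h1 := hc.combo_interior_self_mem_interior hx (hs x (interior_subset hx)) (a := 1 / 2)
    (b := 1 / 2) (by norm_num) (by norm_num) (by norm_num)
  have e : (1 / 2 : ℝ) • x + (1 / 2 : ℝ) • -x = 0 := by module
  rwa [e] at h1

lemma ext_sym {M : Set (Ed n)} {D : ℝ} (h : Ext M D) {u : Ed n} (hu : ‖u‖ = 1) :
    Ext (sym u M) D := by
  have hv := sym_volume hu h.compact h.convex
  have hc := sym_convex hu h.compact h.convex
  refine ⟨sym_isCompact hu h.compact h.convex, hc, ?_, ?_, Bd_sym hu h.compact h.convex h.bd,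
    hv.trans h.vol⟩
  · by_contra hemp
    rw [not_nonempty_iff_eq_empty] at hemp
    have h0 : volume M ≠ 0 :=
      ((isOpen_interior.measure_pos volume h.int).trans_le (measure_mono interior_subset)).ne'
    apply h0
    rw [← hv]
    have h1 := hc.addHaar_frontier volume
    refine measure_mono_null ?_ h1
    intro x hx
    refine ⟨subset_closure hx, ?_⟩
    rw [hemp]
    exact notMem_empty _
  · intro x hx
    rw [sym_eq_image hu h.compact h.convex] at hx ⊢
    obtain ⟨⟨p, q⟩, ⟨hp, hq, hpq⟩, rfl⟩ := hx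
    refine ⟨(-p, -q), ⟨h.symm _ hp, h.symm _ hq, ?_⟩, ?_⟩
    · simp only at hpq ⊢
      have e : -p - -q = -(p - q) := by abel
      rw [e, inner_neg_left, neg_smul, ← hpq]
    · simp only [map_neg]
      module

/-- The pair of supporting functionals. -/
theorem ext_supp {M : Set (Ed n)} {D : ℝ} (h : Ext M D) (hn : 0 < n) {u : Ed n} (hu : ‖u‖ = 1)
    {w : Ed n} (hw : w ∈ sym u M) (hbd : ∀ μ : ℝ, 1 < μ → μ • w ∉ sym u M) :
    ∃ φ ℓ : Ed n →ₗ[ℝ] ℝ, (∀ y ∈ sym u M, φ y ≤ D) ∧ φ w = D ∧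
      (∀ y ∈ M, φ (y - ℓ y • u) ≤ D) ∧ ℓ u = 0 ∧ w + ℓ w • u ∈ M ∧
      refl u (w - ℓ w • u) ∈ M := by
  classical
  obtain ⟨i, v, hv, hvi, hΔ⟩ := (ext_sym h hu).point hn hw hbd
  have hD := h.pos
  obtain ⟨p, q, hp, hq, hvpq, hpq, hdet⟩ := sym_rep hu h.compact h.convex v hv
  obtain ⟨σ, hσ, hσv⟩ : ∃ σ : ℝ, (σ = 1 ∨ σ = -1) ∧ σ * Δ n v = D := by
    rcases abs_cases (Δ n v) with ⟨h1, -⟩ | ⟨h1, -⟩
    · exact ⟨1, Or.inl rfl, by rw [one_mul, ← h1, hΔ]⟩
    · exact ⟨-1, Or.inr rfl, by rw [neg_one_mul, ← h1, hΔ]⟩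
  have hσle : ∀ x : ℝ, σ * x ≤ |x| := by
    intro x
    rcases hσ with h1 | h1 <;> rw [h1]
    · rw [one_mul]; exact le_abs_self x
    · rw [neg_one_mul]; exact neg_le_abs x
  have hσne : σ ≠ 0 := by rcases hσ with h1 | h1 <;> rw [h1] <;> norm_num
  have hΔpv : Δ n p = Δ n v := by
    have h1 := (hσle (Δ n p)).trans (h.bd p hp)
    have h2 : σ * (-Δ n q) ≤ D := by
      refine (hσle _).trans ?_
      rw [abs_neg]
      exact h.bd q hq
    have h3 : σ * Δ n v = (σ * Δ n p + σ * (-Δ n q)) / 2 := by rw [hdet]; ring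
    have h4 : σ * Δ n p = σ * Δ n v := by linarith
    exact mul_left_cancel₀ hσne h4
  set m : Fin n → ℝ := fun j => ⟪p j - v j, u⟫ with hm
  have hpm : ∀ j, p j = v j + m j • u := by
    intro j
    have e1 : q j = p j - ⟪p j - q j, u⟫ • u := by rw [← hpq j]; abel
    have e2 : refl u (q j) = p j - (⟪p j - q j, u⟫ + 2 * ⟪q j, u⟫) • u := by
      rw [refl_apply hu]
      nth_rw 1 [e1]
      module
    have e3 : p j - v j = (1 / 2 * (⟪p j - q j, u⟫ + 2 * ⟪q j, u⟫)) • u := by
      rw [hvpq j, e2]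
      module
    have e4 : m j = 1 / 2 * (⟪p j - q j, u⟫ + 2 * ⟪q j, u⟫) := by
      rw [hm]
      simp only
      rw [e3, inner_smul_left, inner_self_one hu]
      simp
    rw [e4, ← e3]
    abel
  have hΔne : Δ n v ≠ 0 := by
    intro h0
    rw [h0, mul_zero] at hσv
    exact hD.ne hσv
  obtain ⟨hli, hsp⟩ := (Basis.is_basis_iff_det
    (EuclideanSpace.basisFun (Fin n) ℝ).toBasis).2 (isUnit_iff_ne_zero.2 hΔne)
  let b : Basis (Fin n) ℝ (Ed n) := Basis.mk hli hsp.ge
  have hb : ∀ j, b j = v j := fun j => Basis.mk_apply hli hsp.ge j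
  let ℓ : Ed n →ₗ[ℝ] ℝ := b.constr ℝ m
  have hℓ : ∀ j, ℓ (v j) = m j := by
    intro j
    rw [← hb j]
    exact b.constr_basis ℝ m j
  have hT : ∀ y : Ed n, LinearMap.transvection ℓ u y = y + ℓ y • u := fun y => rfl
  have hΔT : ∀ z : Fin n → Ed n, Δ n (fun j => z j + ℓ (z j) • u) = (1 + ℓ u) * Δ n z := by
    intro z
    have h1 := comp_det (LinearMap.transvection ℓ u) z
    rw [LinearMap.transvection.det] at h1
    exact h1
  have hℓu : ℓ u = 0 := by
    have h1 := hΔT v
    have h2 : (fun j => v j + ℓ (v j) • u) = p := by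
      ext1 j
      rw [hℓ, ← hpm]
    rw [h2, hΔpv] at h1
    have h3 : ℓ u * Δ n v = 0 := by linarith
    exact (mul_eq_zero.1 h3).resolve_right hΔne
  refine ⟨σ • (Δ n).toMultilinearMap.toLinearMap v i, ℓ, ?_, ?_, ?_, hℓu, ?_, ?_⟩
  · intro y hy
    show σ * Δ n (Function.update v i y) ≤ D
    refine (hσle _).trans ((ext_sym h hu).bd _ fun j => ?_)
    by_cases hj : j = i
    · subst hj; rw [Function.update_self]; exact hy
    · rw [Function.update_of_ne hj]; exact hv j
  · show σ * Δ n (Function.update v i w) = D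
    rw [← hvi, Function.update_eq_self]
    exact hσv
  · intro y hy
    show σ * Δ n (Function.update v i (y - ℓ y • u)) ≤ D
    have h1 := hΔT (Function.update v i (y - ℓ y • u))
    rw [hℓu, add_zero, one_mul] at h1
    have h2 : (fun j => Function.update v i (y - ℓ y • u) j +
        ℓ (Function.update v i (y - ℓ y • u) j) • u) = Function.update p i y := by
      ext1 j
      by_cases hj : j = i
      · subst hj
        rw [Function.update_self, Function.update_self, map_sub, map_smul, hℓu]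
        simp
      · rw [Function.update_of_ne hj, Function.update_of_ne hj, hℓ, ← hpm]
    rw [h2] at h1
    rw [← h1]
    refine (hσle _).trans (h.bd _ fun j => ?_)
    by_cases hj : j = i
    · subst hj; rw [Function.update_self]; exact hy
    · rw [Function.update_of_ne hj]; exact hp j
  · rw [← hvi, hℓ, ← hpm]
    exact hp i
  · rw [← hvi, hℓ]
    have e1 : v i - m i • u = refl u (q i) := by
      have h1 := hpm i
      have h2 := hvpq i
      have h3 : p i + refl u (q i) = (2 : ℝ) • v i := by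
        rw [h2]; module
      have h4 : refl u (q i) = (2 : ℝ) • v i - p i := by rw [← h3]; abel
      rw [h4, h1]
      module
    rw [e1, refl_refl]
    exact hq i

/-- one-dimensional lemma -/
lemma oned {I : Set ℝ} (hpos : ∀ τ ∈ I, 0 < τ) (hI : ∀ a ∈ I, ∀ b ∈ I, Icc a b ⊆ I)
    (g m : ℝ → ℝ)
    (H : ∀ τ ∈ I, ∃ α : ℝ, ∀ σ ∈ I, g σ ≤ g τ + α * (σ - τ) ∧
      m σ + g σ ≤ g τ + α * (σ - τ) + σ / τ * m τ) :
    ∃ κ : ℝ, ∀ τ ∈ I, m τ = κ * τ := by
  classical
  have H' : ∀ τ : ℝ, ∃ α : ℝ, τ ∈ I → ∀ σ ∈ I, g σ ≤ g τ + α * (σ - τ) ∧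
      m σ + g σ ≤ g τ + α * (σ - τ) + σ / τ * m τ := by
    intro τ
    by_cases h : τ ∈ I
    · obtain ⟨α, hα⟩ := H τ h
      exact ⟨α, fun _ => hα⟩
    · exact ⟨0, fun h' => absurd h' h⟩
  choose α hα using H'
  have step : ∀ τ ∈ I, ∀ σ ∈ I, τ ≤ σ →
      |m σ / σ - m τ / τ| * τ ≤ (α τ - α σ) * (σ - τ) := by
    intro τ hτ σ hσ hτσ
    have t0 := hpos τ hτ
    have s0 := hpos σ hσ
    obtain ⟨a1, a2⟩ := hα τ hτ σ hσ
    obtain ⟨b1, b2⟩ := hα σ hσ τ hτ
    have e1 : m σ = m σ / σ * σ := by field_simp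
    have e2 : m τ = m τ / τ * τ := by field_simp
    have e3 : σ / τ * m τ = m τ / τ * σ := by field_simp
    have e4 : τ / σ * m σ = m σ / σ * τ := by field_simp
    rw [e3] at a2
    rw [e4] at b2
    set x := m σ / σ
    set y := m τ / τ
    rw [e1] at a2
    rw [e2] at b2
    have c1 : (x - y) * σ ≤ (α τ - α σ) * (σ - τ) := by nlinarith
    have c2 : (y - x) * τ ≤ (α τ - α σ) * (σ - τ) := by nlinarith
    rcases abs_cases (x - y) with ⟨h1, h2⟩ | ⟨h1, h2⟩
    · rw [h1]
      refine le_trans ?_ c1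
      exact mul_le_mul_of_nonneg_left hτσ h2
    · rw [h1]
      linarith
  have const : ∀ a ∈ I, ∀ b ∈ I, a ≤ b → m b / b = m a / a := by
    intro a ha b hb hab
    have a0 := hpos a ha
    by_contra hne
    have habs : 0 < |m b / b - m a / a| := abs_pos.2 (sub_ne_zero.2 hne)
    have hN : ∀ N : ℕ, 0 < N → |m b / b - m a / a| * a * N ≤ (α a - α b) * (b - a) := by
      intro N hN
      have hN' : (0 : ℝ) < N := by exact_mod_cast hN
      set δ := (b - a) / N with hδ
      have hδ0 : 0 ≤ δ := by rw [hδ]; apply div_nonneg <;> linarith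
      have hδN : δ * N = b - a := by rw [hδ]; field_simp
      have hmem : ∀ j : ℕ, j ≤ N → a + j * δ ∈ I := by
        intro j hj
        apply hI a ha b hb
        constructor
        · have : 0 ≤ (j : ℝ) * δ := by positivity
          linarith
        · have h1 : (j : ℝ) ≤ N := by exact_mod_cast hj
          have : (j : ℝ) * δ ≤ N * δ := by gcongr
          linarith
      have ind : ∀ j : ℕ, j ≤ N → |m (a + j * δ) / (a + j * δ) - m a / a| * a ≤
          (α a - α (a + j * δ)) * δ := by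
        intro j
        induction j with
        | zero => intro _; simp
        | succ j ih =>
          intro hj
          have h1 := ih (by omega)
          have h2 := step (a + j * δ) (hmem j (by omega)) (a + (j + 1 : ℕ) * δ)
            (hmem (j + 1) hj) (by
              push_cast
              linarith)
          have e : a + ((j + 1 : ℕ) : ℝ) * δ - (a + j * δ) = δ := by push_cast; ring
          rw [e] at h2
          have h3 : a ≤ a + j * δ := by
            have : 0 ≤ (j : ℝ) * δ := by positivity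
            linarith
          have h4 := abs_sub_le (m (a + ((j + 1 : ℕ) : ℝ) * δ) / (a + ((j + 1 : ℕ) : ℝ) * δ))
            (m (a + j * δ) / (a + j * δ)) (m a / a)
          have h5 : |m (a + ((j + 1 : ℕ) : ℝ) * δ) / (a + ((j + 1 : ℕ) : ℝ) * δ) -
            m (a + j * δ) / (a + j * δ)| * a ≤ |m (a + ((j + 1 : ℕ) : ℝ) * δ) /
            (a + ((j + 1 : ℕ) : ℝ) * δ) - m (a + j * δ) / (a + j * δ)| * (a + j * δ) := by
            gcongr
          have h6 : |m (a + ((j + 1 : ℕ) : ℝ) * δ) / (a + ((j + 1 : ℕ) : ℝ) * δ) - m a / a| * a ≤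
            (|m (a + ((j + 1 : ℕ) : ℝ) * δ) / (a + ((j + 1 : ℕ) : ℝ) * δ) -
            m (a + j * δ) / (a + j * δ)| + |m (a + j * δ) / (a + j * δ) - m a / a|) * a := by
            gcongr
          nlinarith
      have h1 := ind N le_rfl
      have h2 : a + N * δ = b := by linarith
      rw [h2] at h1
      calc |m b / b - m a / a| * a * N ≤ ((α a - α b) * δ) * N := by gcongr
        _ = (α a - α b) * (b - a) := by rw [mul_assoc, hδN]
    have hc : 0 < |m b / b - m a / a| * a := by positivity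
    obtain ⟨N, hN1⟩ := exists_nat_gt ((α a - α b) * (b - a) / (|m b / b - m a / a| * a))
    have h1 := hN (N + 1) (by omega)
    rw [div_lt_iff₀ hc] at hN1
    push_cast at h1
    nlinarith
  rcases Set.eq_empty_or_nonempty I with h | ⟨a, ha⟩
  · exact ⟨0, fun τ hτ => by rw [h] at hτ; exact absurd hτ (notMem_empty _)⟩
  · refine ⟨m a / a, fun τ hτ => ?_⟩
    have t0 := hpos τ hτ
    have h1 : m τ / τ = m a / a := by
      rcases le_total a τ with h2 | h2
      · exact const a ha τ hτ h2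
      · exact (const τ hτ a ha h2).symm
    rw [← h1]
    field_simp

end Q187.Mass
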